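import Mathlib

/-!
# Tate resolutions on the product of two projective lines: definitions

`S = K[x_0, x_1, y_0, y_1]` is the `ℤ²`-graded coordinate ring of `ℙ¹ × ℙ¹`,
`E = Λ(V_1 ⊕ V_2)` the exterior algebra.
-/

set_option autoImplicit false

set_option warn.classDefReducibility false

namespace Pool.Agent.K7.H10.TR

universe u

/-! ### Graded modules and sheaves -/

/-- A `ℤ`-graded module over `K[z_0, z_1]`, as a family of vector spaces with the operators
`z_0`, `z_1` of degree one: a quasi-coherent sheaf on the projective line. -/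
structure GMod (K : Type u) [Field K] where
  carrier : ℤ → Type u
  [grp : ∀ a, AddCommGroup (carrier a)]
  [mod : ∀ a, Module K (carrier a)]
  z : Fin 2 → ∀ a, carrier a →ₗ[K] carrier (a + 1)
  comm : ∀ i j a m, z i (a + 1) (z j a m) = z j (a + 1) (z i a m)

attribute [instance] GMod.grp GMod.mod

/-- A `ℤ²`-graded module over `K[x_0, x_1, y_0, y_1]`, as a family of vector spaces with the
operators `x_0`, `x_1` of degree `(1, 0)` and `y_0`, `y_1` of degree `(0, 1)`: a quasi-coherent
sheaf on `ℙ¹ × ℙ¹`. -/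
structure BMod (K : Type u) [Field K] where
  carrier : ℤ → ℤ → Type u
  [grp : ∀ a b, AddCommGroup (carrier a b)]
  [mod : ∀ a b, Module K (carrier a b)]
  x : Fin 2 → ∀ a b, carrier a b →ₗ[K] carrier (a + 1) b
  y : Fin 2 → ∀ a b, carrier a b →ₗ[K] carrier a (b + 1)
  xx : ∀ i j a b m, x i (a + 1) b (x j a b m) = x j (a + 1) b (x i a b m)
  yy : ∀ i j a b m, y i a (b + 1) (y j a b m) = y j a (b + 1) (y i a b m)
  xy : ∀ i j a b m, x i a (b + 1) (y j a b m) = y j (a + 1) b (x i a b m)

attribute [instance] BMod.grp BMod.mod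

/-- The homogeneous elements of the submodule generated by finitely many homogeneous elements
`g i`, of degrees `d i`. -/
inductive BMod.Span {K : Type u} [Field K] (F : BMod K) {k : ℕ} (d : Fin k → ℤ × ℤ)
    (g : ∀ i, F.carrier (d i).1 (d i).2) : ∀ a b, F.carrier a b → Prop
  | gen (i : Fin k) : BMod.Span F d g (d i).1 (d i).2 (g i)
  | zero (a b : ℤ) : BMod.Span F d g a b 0
  | add (a b : ℤ) (m m' : F.carrier a b) :
      BMod.Span F d g a b m → BMod.Span F d g a b m' → BMod.Span F d g a b (m + m')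
  | smul (a b : ℤ) (r : K) (m : F.carrier a b) :
      BMod.Span F d g a b m → BMod.Span F d g a b (r • m)
  | x (i : Fin 2) (a b : ℤ) (m : F.carrier a b) :
      BMod.Span F d g a b m → BMod.Span F d g (a + 1) b (F.x i a b m)
  | y (i : Fin 2) (a b : ℤ) (m : F.carrier a b) :
      BMod.Span F d g a b m → BMod.Span F d g a (b + 1) (F.y i a b m)

/-- The sheaf of the graded module `F` is coherent: the elements of large degrees are generated by
finitely many homogeneous elements. -/
def BMod.Coherent {K : Type u} [Field K] (F : BMod K) : Prop :=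
  ∃ (k : ℕ) (d : Fin k → ℤ × ℤ) (g : ∀ i, F.carrier (d i).1 (d i).2) (c : ℤ),
    ∀ a b, c ≤ a → c ≤ b → ∀ m : F.carrier a b, F.Span d g a b m

open TensorProduct in
/-- The component of bidegree `(a, b)` of the graded module of the box product `P ⊠ Q`, the tensor
product of `P_a` and `Q_b`. -/
def Box {K : Type u} [Field K] (P Q : GMod K) (a b : ℤ) : Type u :=
  P.carrier a ⊗[K] Q.carrier b

open TensorProduct in
/-- The addition of the components. -/
noncomputable def groupBox {K : Type u} [Field K] (P Q : GMod K) (a b : ℤ) :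
    AddCommGroup (Box P Q a b) :=
  (inferInstance : AddCommGroup (P.carrier a ⊗[K] Q.carrier b))

attribute [instance] groupBox

open TensorProduct in
/-- The vector space structure of the components. -/
noncomputable def moduleBox {K : Type u} [Field K] (P Q : GMod K) (a b : ℤ) :
    Module K (Box P Q a b) :=
  (inferInstance : Module K (P.carrier a ⊗[K] Q.carrier b))

attribute [instance] moduleBox

/-- The multiplication by `x_i` on the graded module of `P ⊠ Q`. -/
noncomputable def Box.x {K : Type u} [Field K] {P Q : GMod K} (i : Fin 2) (a b : ℤ)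
    (t : Box P Q a b) : Box P Q (a + 1) b := (P.z i a).rTensor (Q.carrier b) t

/-- The multiplication by `y_i` on the graded module of `P ⊠ Q`. -/
noncomputable def Box.y {K : Type u} [Field K] {P Q : GMod K} (i : Fin 2) (a b : ℤ)
    (t : Box P Q a b) : Box P Q a (b + 1) := (Q.z i b).lTensor (P.carrier a) t

/-- The component of bidegree `(a, b)` of the direct sum of the box products `P j ⊠ Q j`. -/
def SumBox {K : Type u} [Field K] {J : Type u} (P Q : J → GMod K) (a b : ℤ) : Type u :=
  Π₀ j, Box (P j) (Q j) a b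

/-- The addition of the direct sum. -/
noncomputable def groupSumBox {K : Type u} [Field K] {J : Type u} (P Q : J → GMod K) (a b : ℤ) :
    AddCommGroup (SumBox P Q a b) :=
  (inferInstance : AddCommGroup (Π₀ j, Box (P j) (Q j) a b))

attribute [instance] groupSumBox

/-- The vector space structure of the direct sum. -/
noncomputable def moduleSumBox {K : Type u} [Field K] {J : Type u} (P Q : J → GMod K) (a b : ℤ) :
    Module K (SumBox P Q a b) :=
  (inferInstance : Module K (Π₀ j, Box (P j) (Q j) a b))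

attribute [instance] moduleSumBox

/-- The component of an element of the direct sum. -/
def SumBox.proj {K : Type u} [Field K] {J : Type u} {P Q : J → GMod K} {a b : ℤ}
    (t : SumBox P Q a b) (j : J) : Box (P j) (Q j) a b :=
  DFinsupp.toFun t j

/-- The sheaf of the graded module `F` is isomorphic to the direct sum of the box products
`P j ⊠ Q j`: in large degrees `F` is isomorphic to the direct sum of the tensor products of the
graded modules `P j`, `Q j`. -/
def BMod.IsSumOfBoxProducts {K : Type u} [Field K] (F : BMod K) {J : Type u}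
    (P Q : J → GMod K) : Prop :=
  ∃ (c : ℤ) (e : ∀ a b : ℤ, F.carrier a b ≃ₗ[K] SumBox P Q a b),
    ∀ a b, c ≤ a → c ≤ b → ∀ (i : Fin 2) (m : F.carrier a b) (j : J),
      (e (a + 1) b (F.x i a b m)).proj j = Box.x i a b ((e a b m).proj j) ∧
      (e a (b + 1) (F.y i a b m)).proj j = Box.y i a b ((e a b m).proj j)

/-! ### The exterior algebra -/

variable (K : Type u) [Field K]

/-- `V_1 ⊕ V_2`. -/
def V : Type u := (Fin 2 → K) × (Fin 2 → K)

/-- The addition of `V_1 ⊕ V_2`. -/
noncomputable def groupV : AddCommGroup (V K) :=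
  (inferInstance : AddCommGroup ((Fin 2 → K) × (Fin 2 → K)))

attribute [instance] groupV

/-- The vector space structure of `V_1 ⊕ V_2`. -/
noncomputable def moduleV : Module K (V K) :=
  (inferInstance : Module K ((Fin 2 → K) × (Fin 2 → K)))

attribute [instance] moduleV

/-- `E = Λ(V_1 ⊕ V_2)`. -/
def E : Type u := ExteriorAlgebra K (V K)

/-- The ring structure of `E`. -/
noncomputable def ringE : Ring (E K) := (inferInstance : Ring (ExteriorAlgebra K (V K)))

attribute [instance] ringE

/-- The algebra structure of `E`. -/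
noncomputable def algebraE : Algebra K (E K) :=
  (inferInstance : Algebra K (ExteriorAlgebra K (V K)))

attribute [instance] algebraE

/-- The inclusion of `V_1 ⊕ V_2` in `E`. -/
noncomputable def iE (v : V K) : E K := ExteriorAlgebra.ι K v

/-- The augmentation `E → K`. -/
noncomputable def aug (e : E K) : K := ExteriorAlgebra.algebraMapInv (R := K) (M := V K) e

/-- The subspace `V_1` of `E`. -/
noncomputable def V1 : Submodule K (E K) := Submodule.span K (Set.range fun v => iE K (v, 0))

/-- The subspace `V_2` of `E`. -/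
noncomputable def V2 : Submodule K (E K) := Submodule.span K (Set.range fun v => iE K (0, v))

/-- The homogeneous component `E_a`; `V_1` has degree `(-1, 0)` and `V_2` has degree `(0, -1)`. -/
noncomputable def Epiece (a : ℤ × ℤ) : Submodule K (E K) :=
  if a.1 ≤ 0 ∧ a.2 ≤ 0 then V1 K ^ (-a.1).toNat * V2 K ^ (-a.2).toNat else ⊥

/-- The subalgebra `E_1 = Λ V_1`. -/
noncomputable def E1 : Subalgebra K (E K) := Algebra.adjoin K (V1 K : Set (E K))

/-- The subalgebra `E_2 = Λ V_2`. -/
noncomputable def E2 : Subalgebra K (E K) := Algebra.adjoin K (V2 K : Set (E K))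

/-- `ω_E = Hom_K(E, K)`. -/
def Om : Type u := Module.Dual K (E K)

/-- The addition of `ω_E`. -/
noncomputable def groupOm : AddCommGroup (Om K) :=
  (inferInstance : AddCommGroup (Module.Dual K (E K)))

attribute [instance] groupOm

/-- The vector space structure of `ω_E`. -/
noncomputable def moduleOm : Module K (Om K) :=
  (inferInstance : Module K (Module.Dual K (E K)))

attribute [instance] moduleOm

variable {K}

/-- The endomorphism of the right `E`-module `ω_E` given by `e ∈ E`: `(e φ)(x) = φ(x e)`. -/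
noncomputable def act (e : E K) (φ : Om K) : Om K := (LinearMap.mulRight K e).dualMap φ

/-! ### The coordinate ring and the functor `U` -/

variable (K) in
/-- `S = K[x_0, x_1, y_0, y_1]`. -/
abbrev S : Type u := MvPolynomial (Fin 2 ⊕ Fin 2) K

/-- `f` belongs to the homogeneous component `S_a`; `x_i` has degree `(1, 0)` and `y_i` has
degree `(0, 1)`. -/
def InS (a : ℤ × ℤ) (f : S K) : Prop :=
  ∀ m ∈ f.support, ((m (Sum.inl 0) + m (Sum.inl 1) : ℕ) : ℤ) = a.1 ∧
    ((m (Sum.inr 0) + m (Sum.inr 1) : ℕ) : ℤ) = a.2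

/-- The contraction of `u_1 = x_0 [x_1] - x_1 [x_0]` with `v ∈ V_1`. -/
noncomputable def con1 (v : Fin 2 → K) : S K :=
  MvPolynomial.C (v 1) * MvPolynomial.X (Sum.inl 0) -
    MvPolynomial.C (v 0) * MvPolynomial.X (Sum.inl 1)

/-- The contraction of `u_2 = y_0 [y_1] - y_1 [y_0]` with `v ∈ V_2`. -/
noncomputable def con2 (v : Fin 2 → K) : S K :=
  MvPolynomial.C (v 1) * MvPolynomial.X (Sum.inr 0) -
    MvPolynomial.C (v 0) * MvPolynomial.X (Sum.inr 1)

theorem con1_add (v w : Fin 2 → K) : con1 (v + w) = con1 v + con1 w := by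
  simp only [con1, Pi.add_apply, map_add]; ring

theorem con2_add (v w : Fin 2 → K) : con2 (v + w) = con2 v + con2 w := by
  simp only [con2, Pi.add_apply, map_add]; ring

theorem con1_smul (r : K) (v : Fin 2 → K) : con1 (r • v) = MvPolynomial.C r * con1 v := by
  simp only [con1, Pi.smul_apply, smul_eq_mul, map_mul]; ring

theorem con2_smul (r : K) (v : Fin 2 → K) : con2 (r • v) = MvPolynomial.C r * con2 v := by
  simp only [con2, Pi.smul_apply, smul_eq_mul, map_mul]; ring

variable (K) in
/-- The square matrices over `S` whose rows and columns are indexed by `{0, 1}²`. -/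
def Mat : Type u := Matrix (Fin 2 × Fin 2) (Fin 2 × Fin 2) (S K)

variable (K) in
/-- The ring of matrices. -/
noncomputable def ringMat : Ring (Mat K) :=
  (inferInstance : Ring (Matrix (Fin 2 × Fin 2) (Fin 2 × Fin 2) (S K)))

attribute [instance] ringMat

variable (K) in
/-- The algebra of matrices. -/
noncomputable def algebraMat : Algebra K (Mat K) :=
  (inferInstance : Algebra K (Matrix (Fin 2 × Fin 2) (Fin 2 × Fin 2) (S K)))

attribute [instance] algebraMat

/-- The tautological subbundles `U_1`, `U_2` are the line bundles `O(-1, 0)`, `O(0, -1)`, with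
generators `u_1`, `u_2` (the element `u_1 = x_0 ⊗ x_1 - x_1 ⊗ x_0` of `S ⊗ W_1`). So
`Λ^{a_1} U_1 ⊠ Λ^{a_2} U_2` is the line bundle `O(-a)`, with generator `u_1 ^ {a_1} u_2 ^ {a_2}`, for
`a ∈ {0, 1}²`, and it vanishes for all other `a`. The matrix of the contraction with
`v ∈ V_1 ⊕ V_2` with respect to these generators (the contraction is an antiderivation). -/
noncomputable def ctrFun (v : V K) : Mat K := fun r s =>
  (if r.2 = s.2 ∧ s.1 = 1 ∧ r.1 = 0 then con1 v.1 else 0) +
    (if r.1 = s.1 ∧ s.2 = 1 ∧ r.2 = 0 then (-1) ^ (s.1 : ℕ) * con2 v.2 else 0)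

theorem ctrFun_add (v w : V K) : ctrFun (v + w) = ctrFun v + ctrFun w := by
  funext r s
  change _ = ctrFun v r s + ctrFun w r s
  have h1 : (v + w).1 = v.1 + w.1 := rfl
  have h2 : (v + w).2 = v.2 + w.2 := rfl
  simp only [ctrFun, h1, h2, con1_add, con2_add]
  split_ifs <;> ring

theorem ctrFun_smul (c : K) (v : V K) : ctrFun (c • v) = c • ctrFun v := by
  funext r s
  change _ = c • ctrFun v r s
  have h1 : (c • v).1 = c • v.1 := rfl
  have h2 : (c • v).2 = c • v.2 := rfl
  simp only [ctrFun, h1, h2, con1_smul, con2_smul, MvPolynomial.smul_eq_C_mul]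
  split_ifs <;> ring

/-- The contraction with the elements of `V_1 ⊕ V_2`, as a linear map. -/
noncomputable def ctr : V K →ₗ[K] Mat K := ⟨⟨ctrFun, ctrFun_add⟩, ctrFun_smul⟩

theorem ctr_mul_self (v : V K) : ctr v * ctr v = 0 := by
  change @HMul.hMul (Matrix (Fin 2 × Fin 2) (Fin 2 × Fin 2) (S K))
    (Matrix (Fin 2 × Fin 2) (Fin 2 × Fin 2) (S K)) _ _ (ctrFun v) (ctrFun v) = 0
  refine Matrix.ext fun r s => ?_
  obtain ⟨r1, r2⟩ := r
  obtain ⟨s1, s2⟩ := s
  rw [Matrix.mul_apply, Fintype.sum_prod_type]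
  fin_cases r1 <;> fin_cases r2 <;> fin_cases s1 <;> fin_cases s2 <;>
    simp [ctrFun, Fin.sum_univ_two]
  ring

theorem exists_rho : ∃ ρ : E K →ₐ[K] Mat K, ∀ v, ρ (iE K v) = ctrFun v :=
  ⟨ExteriorAlgebra.lift K ⟨ctr, ctr_mul_self⟩,
    ExteriorAlgebra.lift_ι_apply K (ctr (K := K)) ctr_mul_self⟩

/-- The contraction with the elements of `E`: the algebra homomorphism with `v ↦ ctrFun v` for
`v ∈ V_1 ⊕ V_2`. -/
noncomputable def rho : E K →ₐ[K] Mat K := exists_rho.choose

/-- The element of `{0, 1}²` as an element of `ℤ²`. -/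
def toZ (r : Fin 2 × Fin 2) : ℤ × ℤ := ((r.1 : ℕ), (r.2 : ℕ))

/-- The entry of the matrix of the contraction with `e` at the row `b` and the column `a`, zero if
`a` or `b` is not in `{0, 1}²`. -/
noncomputable def entry (M : Mat K) (b a : ℤ × ℤ) : S K :=
  ∑ r, ∑ s, if toZ r = b ∧ toZ s = a then M r s else 0

/-- `f` is an element of degree `a` of the graded module of `Λ^{b_1} U_1 ⊠ Λ^{b_2} U_2`: this is the
space `S_{a - b}` if `b ∈ {0, 1}²`, otherwise zero. -/
def InU (a b : ℤ × ℤ) (f : S K) : Prop :=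
  f = 0 ∨ ((∃ r, toZ r = b) ∧ InS (a - b) f)

/-! ### Complexes of free modules -/

variable (K) in
/-- A locally finite complex `T` of direct sums of twists of `ω_E`: the summands of `T^n` are
`ω_E(deg n i)`, and `D n j i` is the entry of the differential `T^n → T^{n+1}`, an element of
`Hom_E(ω_E(a), ω_E(b)) = E_{b - a}`. -/
structure FreeComplex where
  I : ℤ → Type
  deg : ∀ n, I n → ℤ × ℤ
  D : ∀ n, I (n + 1) → I n → E K
  homogeneous : ∀ n j i, D n j i ∈ Epiece K (deg (n + 1) j - deg n i)
  finite_columns : ∀ n i, {j | D n j i ≠ 0}.Finite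
  locally_finite : ∀ n a, {i | deg n i = a}.Finite
  sq_zero : ∀ n k i, ∑ᶠ j, D (n + 1) k j * D n j i = 0

namespace FreeComplex

variable (T : FreeComplex K)

/-- The differential of `T` on elements of `T^n`, the direct sum of copies of `ω_E`. -/
noncomputable def diff (n : ℤ) (f : T.I n →₀ Om K) (j : T.I (n + 1)) : Om K :=
  f.sum fun i φ => act (T.D n j i) φ

/-- The subquotient complex of the summands `ω_E(a)` with `P a` is exact. -/
def StrandExact (P : ℤ × ℤ → Prop) : Prop :=
  ∀ (n : ℤ) (f : T.I (n + 1) →₀ Om K), (∀ j, ¬ P (T.deg (n + 1) j) → f j = 0) →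
    (∀ k, P (T.deg (n + 1 + 1) k) → T.diff (n + 1) f k = 0) →
    ∃ g : T.I n →₀ Om K, (∀ i, ¬ P (T.deg n i) → g i = 0) ∧
      ∀ j, P (T.deg (n + 1) j) → T.diff n g j = f j

/-- All strands are exact: `T` itself and its strands with fixed `a_1` or with fixed `a_2`. -/
def IsTateResolution : Prop :=
  T.StrandExact (fun _ => True) ∧ (∀ c : ℤ, T.StrandExact fun a => a.1 = c) ∧
    ∀ c : ℤ, T.StrandExact fun a => a.2 = c

/-- The differential of `T ⊗ K` is zero. -/
def Minimal : Prop := ∀ n j i, aug K (T.D n j i) = 0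

/-- A double complex structure: each summand of `T^n` has a bidegree `(p, q)`, `p + q = n`, and the
differential is the sum of a map of degree `(1, 0)` with entries in `E_1` and of a map of degree
`(0, 1)` with entries in `E_2`. -/
def HasDoubleStructure : Prop :=
  ∃ p : ∀ n, T.I n → ℤ, ∀ n j i, T.D n j i ≠ 0 →
    (p (n + 1) j = p n i + 1 ∧ T.D n j i ∈ E1 K) ∨ (p (n + 1) j = p n i ∧ T.D n j i ∈ E2 K)

/-- `f` is an element of degree `a` of the term of index `n` of the complex of graded modules
`U(T(c))` (with terms `Λ^{b_1} U_1 ⊠ Λ^{b_2} U_2`, `b = deg n i + c`). -/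
def IsChain (c : ℤ × ℤ) (n : ℤ) (a : ℤ × ℤ) (f : T.I n →₀ S K) : Prop :=
  ∀ i, InU a (T.deg n i + c) (f i)

/-- The differential of `U(T(c))`. -/
noncomputable def udiff (c : ℤ × ℤ) (n : ℤ) (f : T.I n →₀ S K) (j : T.I (n + 1)) : S K :=
  f.sum fun i s => entry (rho (T.D n j i)) (T.deg (n + 1) j + c) (T.deg n i + c) * s

/-- `f` is a cycle of degree `a` in the term of index `n` of `U(T(c))`. -/
def IsCycle (c : ℤ × ℤ) (n : ℤ) (a : ℤ × ℤ) (f : T.I n →₀ S K) : Prop :=
  T.IsChain c n a f ∧ ∀ j, T.udiff c n f j = 0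

/-- `f` is a boundary of degree `a` in the term of index `n + 1` of `U(T(c))`. -/
def IsBoundary (c : ℤ × ℤ) (n : ℤ) (a : ℤ × ℤ) (f : T.I (n + 1) →₀ S K) : Prop :=
  ∃ g, T.IsChain c n a g ∧ ∀ j, T.udiff c n g j = f j

/-- The homology of `U(T(c))` in the index `n + 1` is `F(c)`: in the large degrees `a - c`, the
space of cycles modulo the boundaries is isomorphic to `F_a`, compatibly with the multiplication by
the variables (the isomorphism is induced by the restriction of `φ` to the cycles). -/
def HomologyIs (c : ℤ × ℤ) (n : ℤ) (F : BMod K) : Prop :=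
  ∃ (b : ℤ) (φ : ∀ a₁ a₂ : ℤ, (T.I (n + 1) →₀ S K) →ₗ[K] F.carrier a₁ a₂),
    ∀ a₁ a₂ : ℤ, b ≤ a₁ → b ≤ a₂ →
      (∀ m, ∃ f, T.IsCycle c (n + 1) ((a₁, a₂) - c) f ∧ φ a₁ a₂ f = m) ∧
      ∀ f, T.IsCycle c (n + 1) ((a₁, a₂) - c) f →
        (φ a₁ a₂ f = 0 ↔ T.IsBoundary c n ((a₁, a₂) - c) f) ∧
        ∀ i : Fin 2,
          φ (a₁ + 1) a₂ ((MvPolynomial.X (Sum.inl i) : S K) • f) = F.x i a₁ a₂ (φ a₁ a₂ f) ∧
          φ a₁ (a₂ + 1) ((MvPolynomial.X (Sum.inr i) : S K) • f) = F.y i a₁ a₂ (φ a₁ a₂ f)

/-- The homology of `U(T(c))` in the index `n + 1` vanishes in large degrees. -/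
def HomologyVanishes (c : ℤ × ℤ) (n : ℤ) : Prop :=
  ∃ b : ℤ, ∀ a : ℤ × ℤ, b ≤ a.1 → b ≤ a.2 → ∀ f, T.IsCycle c (n + 1) a f → T.IsBoundary c n a f

/-- `U(T(c)[|c|])` is a Beilinson monad for `F(c)`: the homology of the corresponding complex of
sheaves is `F(c)` in degree zero (in the index `|c| = c_1 + c_2` of `U(T(c))`), and zero in all
other degrees. -/
def MonadFor (F : BMod K) (c : ℤ × ℤ) : Prop :=
  ∀ n : ℤ, (n + 1 ≠ c.1 + c.2 → T.HomologyVanishes c n) ∧
    (n + 1 = c.1 + c.2 → T.HomologyIs c n F)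

/-- `T` is the Tate resolution `T(F)` of the sheaf of `F`: the minimal Tate resolution such that
`U(T(c)[|c|])` is a Beilinson monad for `F(c)` for all `c ∈ ℤ²`. -/
def IsTateResolutionOf (F : BMod K) : Prop :=
  T.Minimal ∧ T.IsTateResolution ∧ ∀ c, T.MonadFor F c

end FreeComplex

end Pool.Agent.K7.H10.TR
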