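import Pool.Agent.K7.H10.TR.Poly

/-!
# The Tate resolution of the structure sheaf of a diagonal tangent vector
-/

set_option autoImplicit false

namespace Pool.Agent.K7.H10.TR

universe u

variable {K : Type u} [Field K]

open MvPolynomial

/-! ### Generalities -/

/-- The action as a linear map. -/
noncomputable def actL (e : E K) : Om K →ₗ[K] Om K := (LinearMap.mulRight K e).dualMap

theorem actL_zero : actL (0 : E K) = 0 := by
  refine LinearMap.ext fun φ => LinearMap.ext (M := E K) (M₃ := K) fun x => ?_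
  have h : ∀ ψ : Module.Dual K (E K), ψ (x * 0) = 0 := by
    intro ψ
    rw [mul_zero, map_zero]
  exact h φ

/-- The transpose of the contraction with a linear form. -/
noncomputable def conR (d : Module.Dual K (V K)) : E K →ₗ[K] E K :=
  (CliffordAlgebra.contractRight (Q := (0 : QuadraticForm K (V K)))).flip d

theorem conR_mul (d : Module.Dual K (V K)) (v : V K) (x : E K) :
    conR d (x * iE K v) = d v • x - conR d x * iE K v :=
  CliffordAlgebra.contractRight_mul_ι (Q := (0 : QuadraticForm K (V K))) (d := d) v x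

/-- The transpose of the contraction with a linear form. -/
noncomputable def hom (d : Module.Dual K (V K)) : Om K →ₗ[K] Om K := (conR d).dualMap

theorem act_hom (v : V K) (d : Module.Dual K (V K)) (φ : Om K) :
    actL (iE K v) (hom d φ) + hom d (actL (iE K v) φ) = d v • φ := by
  refine LinearMap.ext (M := E K) (M₃ := K) fun x => ?_
  have h : ∀ ψ : Module.Dual K (E K), ψ (conR d (x * iE K v)) + ψ (conR d x * iE K v) =
      d v • ψ x := by
    intro ψ
    rw [← map_add, conR_mul, sub_add_cancel, map_smul]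
  exact h φ

/-! ### Sums over `ℤ × Fin 2` -/

theorem sum_two {M N : Type*} [AddCommMonoid M] [AddCommMonoid N] (f : ℤ × Fin 2 →₀ M)
    (Φ : ℤ × Fin 2 → M → N) (h0 : ∀ i, Φ i 0 = 0) (q : ℤ)
    (h : ∀ i s, i.1 ≠ q - 1 → i.1 ≠ q → Φ i s = 0) :
    f.sum Φ = (Φ (q - 1, 0) (f (q - 1, 0)) + Φ (q - 1, 1) (f (q - 1, 1))) +
      (Φ (q, 0) (f (q, 0)) + Φ (q, 1) (f (q, 1))) := by
  classical
  set s : Finset (ℤ × Fin 2) := {q - 1, q} ×ˢ Finset.univ with hs
  have h1 : f.sum Φ = ∑ i ∈ f.support ∪ s, Φ i (f i) :=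
    Finsupp.sum_of_support_subset f Finset.subset_union_left Φ fun i _ => h0 i
  have h2 : ∑ i ∈ s, Φ i (f i) = ∑ i ∈ f.support ∪ s, Φ i (f i) := by
    refine Finset.sum_subset Finset.subset_union_right fun i _ hi => h i _ ?_ ?_
    · intro hq
      exact hi (by simp [hs, hq])
    · intro hq
      exact hi (by simp [hs, hq])
  rw [h1, ← h2, hs, Finset.sum_product, Finset.sum_pair (by omega)]
  simp [Fin.sum_univ_two]

/-! ### The complex -/

variable (K) in
/-- The basis vector `e_i` of `V_1`. -/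
noncomputable def ee (i : Fin 2) : E K := iE K (Pi.single i 1, 0)

variable (K) in
/-- The basis vector `f_i` of `V_2`. -/
noncomputable def ff (i : Fin 2) : E K := iE K (0, Pi.single i 1)

variable (K) in
/-- The matrix of `e_0 + t e_1`, where `t² = 0`. -/
noncomputable def al (l k : Fin 2) : E K := if l = k then ee K 0 else if k = 0 then ee K 1 else 0

variable (K) in
/-- The matrix of `f_0 + t f_1`. -/
noncomputable def be (l k : Fin 2) : E K := if l = k then ff K 0 else if k = 0 then ff K 1 else 0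

variable (K) in
/-- The differential. -/
noncomputable def DD (j i : ℤ × Fin 2) : E K :=
  if j.1 = i.1 + 1 then al K j.2 i.2 else if j.1 = i.1 then be K j.2 i.2 else 0

theorem DD_eq_zero {j i : ℤ × Fin 2} (h1 : i.1 ≠ j.1 - 1) (h2 : i.1 ≠ j.1) : DD K j i = 0 := by
  rw [DD, if_neg (by omega), if_neg (by omega)]

theorem mul_self_ι (v : V K) : iE K v * iE K v = 0 :=
  ExteriorAlgebra.ι_sq_zero v

theorem mul_swap_ι (v w : V K) : iE K v * iE K w + iE K w * iE K v = 0 :=
  ExteriorAlgebra.ι_add_mul_swap v w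

theorem al_al (m k : Fin 2) : ∑ l, al K m l * al K l k = 0 := by
  have h0 : ee K 0 * ee K 0 = 0 := mul_self_ι _
  have h1 : ee K 1 * ee K 0 + ee K 0 * ee K 1 = 0 := mul_swap_ι _ _
  rw [Fin.sum_univ_two]
  fin_cases m <;> fin_cases k <;> simp [al, h0, h1]

theorem be_be (m k : Fin 2) : ∑ l, be K m l * be K l k = 0 := by
  have h0 : ff K 0 * ff K 0 = 0 := mul_self_ι _
  have h1 : ff K 1 * ff K 0 + ff K 0 * ff K 1 = 0 := mul_swap_ι _ _
  rw [Fin.sum_univ_two]
  fin_cases m <;> fin_cases k <;> simp [be, h0, h1]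

theorem al_be (m k : Fin 2) : ∑ l, al K m l * be K l k + ∑ l, be K m l * al K l k = 0 := by
  have h0 : ee K 0 * ff K 0 + ff K 0 * ee K 0 = 0 := mul_swap_ι _ _
  have h1 : ee K 1 * ff K 0 + ff K 0 * ee K 1 = 0 := mul_swap_ι _ _
  have h2 : ee K 0 * ff K 1 + ff K 1 * ee K 0 = 0 := mul_swap_ι _ _
  rw [Fin.sum_univ_two, Fin.sum_univ_two]
  fin_cases m <;> fin_cases k <;> simp [al, be, h0]
  calc ee K 1 * ff K 0 + ee K 0 * ff K 1 + (ff K 1 * ee K 0 + ff K 0 * ee K 1)
      = (ee K 1 * ff K 0 + ff K 0 * ee K 1) + (ee K 0 * ff K 1 + ff K 1 * ee K 0) := by abel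
    _ = 0 := by rw [h1, h2, add_zero]

theorem ee_mem (i : Fin 2) : ee K i ∈ V1 K := Submodule.subset_span ⟨Pi.single i 1, rfl⟩

theorem ff_mem (i : Fin 2) : ff K i ∈ V2 K := Submodule.subset_span ⟨Pi.single i 1, rfl⟩

theorem al_mem (l k : Fin 2) : al K l k ∈ V1 K := by
  rw [al]
  split_ifs
  · exact ee_mem 0
  · exact ee_mem 1
  · exact Submodule.zero_mem _

theorem be_mem (l k : Fin 2) : be K l k ∈ V2 K := by
  rw [be]
  split_ifs
  · exact ff_mem 0
  · exact ff_mem 1
  · exact Submodule.zero_mem _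

theorem Epiece_left : Epiece K (-1, 0) = V1 K := by
  rw [Epiece, if_pos (by simp)]
  simp

theorem Epiece_right : Epiece K (0, -1) = V2 K := by
  rw [Epiece, if_pos (by simp)]
  simp

variable (K) in
/-- The complex: `T^n` is the sum over `p` of two copies of `ω_E(-p, p - n)`. -/
noncomputable def TT : FreeComplex K where
  I _ := ℤ × Fin 2
  deg n i := (-i.1, i.1 - n)
  D _ j i := DD K j i
  homogeneous n j i := by
    rw [DD]
    split_ifs with h1 h2
    · have : ((-j.1, j.1 - (n + 1)) - (-i.1, i.1 - n) : ℤ × ℤ) = (-1, 0) := by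
        ext <;> simp <;> omega
      rw [this, Epiece_left]
      exact al_mem _ _
    · have : ((-j.1, j.1 - (n + 1)) - (-i.1, i.1 - n) : ℤ × ℤ) = (0, -1) := by
        ext <;> simp <;> omega
      rw [this, Epiece_right]
      exact be_mem _ _
    · exact Submodule.zero_mem _
  finite_columns n i := by
    refine Set.Finite.subset (Set.Finite.prod (Set.toFinite ({i.1, i.1 + 1} : Set ℤ))
      (Set.finite_univ (α := Fin 2))) ?_
    intro j hj
    simp only [Set.mem_ofPred_eq] at hj
    simp only [Set.mem_prod, Set.mem_insert_iff, Set.mem_singleton_iff, Set.mem_univ, and_true]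
    by_contra hcon
    push Not at hcon
    exact hj (DD_eq_zero (by omega) (by omega))
  locally_finite n a := by
    refine Set.Finite.subset (Set.Finite.prod (Set.finite_singleton (-a.1))
      (Set.finite_univ (α := Fin 2))) ?_
    intro i hi
    simp only [Set.mem_ofPred_eq, Prod.ext_iff] at hi
    simp only [Set.mem_prod, Set.mem_singleton_iff, Set.mem_univ, and_true]
    omega
  sq_zero n k i := by
    have hsub : Function.support (fun j : ℤ × Fin 2 => DD K k j * DD K j i) ⊆
        ↑(({i.1, i.1 + 1} : Finset ℤ) ×ˢ (Finset.univ : Finset (Fin 2))) := by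
      intro j hj
      simp only [Function.mem_support] at hj
      simp only [Finset.coe_product, Finset.coe_insert, Finset.coe_singleton, Finset.coe_univ,
        Set.mem_prod, Set.mem_insert_iff, Set.mem_singleton_iff, Set.mem_univ, and_true]
      by_contra hcon
      push Not at hcon
      exact hj (by rw [DD_eq_zero (j := j) (i := i) (by omega) (by omega), mul_zero])
    rw [finsum_eq_sum_of_support_subset _ hsub, Finset.sum_product,
      Finset.sum_pair (by omega : i.1 ≠ i.1 + 1)]
    have e1 : ∀ l, DD K (i.1, l) i = be K l i.2 := fun l => by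
      rw [DD, if_neg (by simp), if_pos rfl]
    have e2 : ∀ l, DD K (i.1 + 1, l) i = al K l i.2 := fun l => by
      rw [DD, if_pos rfl]
    simp only [e1, e2]
    by_cases h0 : k.1 = i.1
    · have e3 : ∀ l, DD K k (i.1, l) = be K k.2 l := fun l => by
        rw [DD, if_neg (by simp; omega), if_pos h0]
      have e4 : ∀ l, DD K k (i.1 + 1, l) = 0 := fun l => DD_eq_zero (by simp; omega) (by simp; omega)
      simp only [e3, e4, zero_mul, Finset.sum_const_zero, add_zero]
      exact be_be _ _
    · by_cases h1 : k.1 = i.1 + 1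
      · have e3 : ∀ l, DD K k (i.1, l) = al K k.2 l := fun l => by
          rw [DD, if_pos h1]
        have e4 : ∀ l, DD K k (i.1 + 1, l) = be K k.2 l := fun l => by
          rw [DD, if_neg (by simp; omega), if_pos h1]
        simp only [e3, e4]
        exact al_be _ _
      · by_cases h2 : k.1 = i.1 + 2
        · have e3 : ∀ l, DD K k (i.1, l) = 0 := fun l =>
            DD_eq_zero (by simp; omega) (by simp; omega)
          have e4 : ∀ l, DD K k (i.1 + 1, l) = al K k.2 l := fun l => by
            rw [DD, if_pos (by simp; omega)]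
          simp only [e3, e4, zero_mul, Finset.sum_const_zero, zero_add]
          exact al_al _ _
        · have e3 : ∀ l, DD K k (i.1, l) = 0 := fun l =>
            DD_eq_zero (by simp; omega) (by simp; omega)
          have e4 : ∀ l, DD K k (i.1 + 1, l) = 0 := fun l =>
            DD_eq_zero (by simp; omega) (by simp; omega)
          simp [e3, e4]

theorem aug_iE (v : V K) : aug K (iE K v) = 0 := by
  change (ExteriorAlgebra.algebraMapInv (ExteriorAlgebra.ι K v) : K) = 0
  simp [ExteriorAlgebra.algebraMapInv]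

theorem aug_zero : aug K (0 : E K) = 0 :=
  map_zero (ExteriorAlgebra.algebraMapInv (R := K) (M := V K))

theorem minimal : (TT K).Minimal := by
  intro n j i
  change aug K (DD K j i) = 0
  rw [DD]
  split_ifs
  · rw [al]; split_ifs <;> first | exact aug_iE _ | exact aug_zero
  · rw [be]; split_ifs <;> first | exact aug_iE _ | exact aug_zero
  · exact aug_zero

theorem hasDoubleStructure : (TT K).HasDoubleStructure := by
  refine ⟨fun _ i => i.1, fun n j i h => ?_⟩
  change DD K j i ≠ 0 at h
  change (j.1 = i.1 + 1 ∧ DD K j i ∈ _) ∨ (j.1 = i.1 ∧ DD K j i ∈ _)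
  by_cases h1 : j.1 = i.1 + 1
  · refine Or.inl ⟨h1, ?_⟩
    rw [DD, if_pos h1]
    exact Algebra.subset_adjoin (al_mem _ _)
  · by_cases h2 : j.1 = i.1
    · refine Or.inr ⟨h2, ?_⟩
      rw [DD, if_neg h1, if_pos h2]
      exact Algebra.subset_adjoin (be_mem _ _)
    · exact absurd (DD_eq_zero (by omega) (by omega)) h

/-! ### Exactness -/

theorem diff_apply (n : ℤ) (f : ℤ × Fin 2 →₀ Om K) (j : ℤ × Fin 2) :
    (TT K).diff n f j = f.sum fun i φ => actL (DD K j i) φ := by
  rfl

theorem diff_zero (n : ℤ) (f : ℤ × Fin 2 →₀ Om K) (q : ℤ) :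
    (TT K).diff n f (q, 0) = actL (ee K 0) (f (q - 1, 0)) + actL (ff K 0) (f (q, 0)) := by
  rw [diff_apply, sum_two f _ (fun i => map_zero _) q]
  · have h1 : ∀ k, DD K (q, 0) (q - 1, k) = al K 0 k := fun k => by
      rw [DD, if_pos (by simp)]
    have h2 : ∀ k, DD K (q, 0) (q, k) = be K 0 k := fun k => by
      rw [DD, if_neg (by simp), if_pos rfl]
    simp [h1, h2, al, be, actL_zero]
  · intro i s h1 h2
    rw [DD_eq_zero h1 h2, actL_zero, LinearMap.zero_apply]

theorem diff_one (n : ℤ) (f : ℤ × Fin 2 →₀ Om K) (q : ℤ) :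
    (TT K).diff n f (q, 1) = actL (ee K 1) (f (q - 1, 0)) + actL (ee K 0) (f (q - 1, 1)) +
      (actL (ff K 1) (f (q, 0)) + actL (ff K 0) (f (q, 1))) := by
  rw [diff_apply, sum_two f _ (fun i => map_zero _) q]
  · have h1 : ∀ k, DD K (q, 1) (q - 1, k) = al K 1 k := fun k => by
      rw [DD, if_pos (by simp)]
    have h2 : ∀ k, DD K (q, 1) (q, k) = be K 1 k := fun k => by
      rw [DD, if_neg (by simp), if_pos rfl]
    simp [h1, h2, al, be]
  · intro i s h1 h2
    rw [DD_eq_zero h1 h2, actL_zero, LinearMap.zero_apply]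

/-- The linear form dual to `e_0`. -/
noncomputable def de : Module.Dual K (V K) :=
  LinearMap.proj 0 ∘ₗ LinearMap.fst K (Fin 2 → K) (Fin 2 → K)

/-- The linear form dual to `f_0`. -/
noncomputable def df : Module.Dual K (V K) :=
  LinearMap.proj 0 ∘ₗ LinearMap.snd K (Fin 2 → K) (Fin 2 → K)

theorem de_apply (v : V K) : de v = v.1 0 := rfl

theorem df_apply (v : V K) : df v = v.2 0 := rfl

theorem h_e0 (φ : Om K) : actL (ee K 0) (hom de φ) = φ - hom de (actL (ee K 0) φ) := by
  rw [eq_sub_iff_add_eq, ee, act_hom, de_apply]; simp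

theorem h_e1 (φ : Om K) : actL (ee K 1) (hom de φ) = - hom de (actL (ee K 1) φ) := by
  rw [eq_neg_iff_add_eq_zero, ee, act_hom, de_apply]; simp

theorem h_f (i : Fin 2) (φ : Om K) : actL (ff K i) (hom de φ) = - hom de (actL (ff K i) φ) := by
  rw [eq_neg_iff_add_eq_zero, ff, act_hom, de_apply]; simp

theorem h'_f0 (φ : Om K) : actL (ff K 0) (hom df φ) = φ - hom df (actL (ff K 0) φ) := by
  rw [eq_sub_iff_add_eq, ff, act_hom, df_apply]; simp

theorem h'_f1 (φ : Om K) : actL (ff K 1) (hom df φ) = - hom df (actL (ff K 1) φ) := by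
  rw [eq_neg_iff_add_eq_zero, ff, act_hom, df_apply]; simp

/-- The homotopy of degree `(-1, 0)`. -/
noncomputable def shiftHom (f : ℤ × Fin 2 →₀ Om K) : ℤ × Fin 2 →₀ Om K :=
  Finsupp.comapDomain (fun i : ℤ × Fin 2 => (i.1 + 1, i.2))
    (f.mapRange (hom de) (map_zero _))
    (fun i _ j _ h => by
      simp only [Prod.mk.injEq, add_left_inj] at h
      exact Prod.ext h.1 h.2)

theorem shiftHom_apply (f : ℤ × Fin 2 →₀ Om K) (p : ℤ) (k : Fin 2) :
    shiftHom f (p, k) = hom de (f (p + 1, k)) := rfl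

theorem shift_aux (n n' : ℤ) (f : ℤ × Fin 2 →₀ Om K) (q : ℤ) (k : Fin 2)
    (h : ∀ l, (TT K).diff n' f (q + 1, l) = 0) : (TT K).diff n (shiftHom f) (q, k) = f (q, k) := by
  have h0 := h 0
  have h1 := h 1
  rw [diff_zero, add_sub_cancel_right] at h0
  rw [diff_one, add_sub_cancel_right] at h1
  have h0' := congrArg (hom (K := K) de) h0
  have h1' := congrArg (hom (K := K) de) h1
  simp only [map_add, map_zero] at h0' h1'
  fin_cases k
  · change (TT K).diff n (shiftHom f) (q, 0) = f (q, 0)
    rw [diff_zero, shiftHom_apply, shiftHom_apply, sub_add_cancel, h_e0, h_f]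
    calc _ = f (q, 0) - ((hom de) ((actL (ee K 0)) (f (q, 0))) +
        (hom de) ((actL (ff K 0)) (f (q + 1, 0)))) := by abel
      _ = f (q, 0) := by rw [h0', sub_zero]
  · change (TT K).diff n (shiftHom f) (q, 1) = f (q, 1)
    rw [diff_one, shiftHom_apply, shiftHom_apply, shiftHom_apply, shiftHom_apply, sub_add_cancel,
      h_e0, h_e1, h_f, h_f]
    calc _ = f (q, 1) - ((hom de) ((actL (ee K 1)) (f (q, 0))) +
        (hom de) ((actL (ee K 0)) (f (q, 1))) + ((hom de) ((actL (ff K 1)) (f (q + 1, 0))) +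
        (hom de) ((actL (ff K 0)) (f (q + 1, 1))))) := by abel
      _ = f (q, 1) := by rw [h1', sub_zero]

theorem exact_total : (TT K).StrandExact (fun _ => True) := by
  intro n f _ h
  refine ⟨shiftHom f, fun i hi => absurd trivial hi, fun j _ => ?_⟩
  obtain ⟨q, k⟩ := j
  exact shift_aux n (n + 1) f q k fun l => h (q + 1, l) trivial

end Pool.Agent.K7.H10.TR
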