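import Pool.Agent.K7.H10.TR.Strands

/-!
# The Beilinson monads
-/

set_option autoImplicit false

namespace Pool.Agent.K7.H10.TR

universe u

variable {K : Type u} [Field K]

open MvPolynomial

/-! ### Entries -/

theorem toZ_injective : Function.Injective toZ := by
  rintro ⟨a, b⟩ ⟨c, d⟩ h
  simp only [toZ, Prod.mk.injEq, Nat.cast_inj] at h
  exact Prod.ext (Fin.ext h.1) (Fin.ext h.2)

theorem entry_toZ (M : Mat K) (r s : Fin 2 × Fin 2) :
    entry M (toZ r) (toZ s) = M r s := by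
  rw [entry, Finset.sum_eq_single r, Finset.sum_eq_single s]
  · simp
  · intro s' _ hs'
    rw [if_neg]
    rintro ⟨_, h⟩
    exact hs' (toZ_injective h)
  · simp
  · intro r' _ hr'
    refine Finset.sum_eq_zero fun s' _ => ?_
    rw [if_neg]
    rintro ⟨h, _⟩
    exact hr' (toZ_injective h)
  · simp

theorem entry_row (M : Mat K) {b a : ℤ × ℤ}
    (h : ∀ r, toZ r ≠ b) : entry M b a = 0 := by
  refine Finset.sum_eq_zero fun r _ => Finset.sum_eq_zero fun s _ => ?_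
  rw [if_neg]
  exact fun h' => h r h'.1

theorem entry_col (M : Mat K) {b a : ℤ × ℤ}
    (h : ∀ r, toZ r ≠ a) : entry M b a = 0 := by
  refine Finset.sum_eq_zero fun r _ => Finset.sum_eq_zero fun s _ => ?_
  rw [if_neg]
  exact fun h' => h s h'.2

theorem entry_zero (b a : ℤ × ℤ) : entry (0 : Mat K) b a = 0 := by
  refine Finset.sum_eq_zero fun r _ => Finset.sum_eq_zero fun s _ => ?_
  have h : (0 : Mat K) r s = 0 := rfl
  rw [h, ite_self]

theorem toZ_ne {b : ℤ × ℤ} (h : b.1 < 0 ∨ 1 < b.1 ∨ b.2 < 0 ∨ 1 < b.2) (r : Fin 2 × Fin 2) :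
    toZ r ≠ b := by
  rintro rfl
  obtain ⟨r1, r2⟩ := r
  simp only [toZ] at h
  omega

theorem rho_iE (v : V K) : rho (iE K v) = ctrFun v := exists_rho.choose_spec v

theorem rho_ee (i : Fin 2) : rho (ee K i) = ctrFun (Pi.single i 1, 0) := rho_iE _

theorem rho_ff (i : Fin 2) : rho (ff K i) = ctrFun (0, Pi.single i 1) := rho_iE _

theorem entry_e0 (j : Fin 2) : entry (rho (ee K 0)) (toZ (0, j)) (toZ (1, j)) = -X (Sum.inl 1) := by
  rw [entry_toZ, rho_ee]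
  simp [ctrFun, con1]

theorem entry_e1 (j : Fin 2) : entry (rho (ee K 1)) (toZ (0, j)) (toZ (1, j)) = X (Sum.inl 0) := by
  rw [entry_toZ, rho_ee]
  simp [ctrFun, con1]

theorem entry_f0 (i : Fin 2) : entry (rho (ff K 0)) (toZ (i, 0)) (toZ (i, 1)) =
    (-1) ^ (i : ℕ) * -X (Sum.inr 1) := by
  rw [entry_toZ, rho_ff]
  simp [ctrFun, con2]

theorem entry_f1 (i : Fin 2) : entry (rho (ff K 1)) (toZ (i, 0)) (toZ (i, 1)) =
    (-1) ^ (i : ℕ) * X (Sum.inr 0) := by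
  rw [entry_toZ, rho_ff]
  simp [ctrFun, con2]

/-! ### The differential -/

/-- The degrees. -/
theorem deg_TT (n : ℤ) (i : ℤ × Fin 2) : (TT K).deg n i = (-i.1, i.1 - n) := rfl

theorem udiff_apply (c : ℤ × ℤ) (n : ℤ) (f : ℤ × Fin 2 →₀ S K) (j : ℤ × Fin 2) :
    (TT K).udiff c n f j = f.sum fun i s =>
      entry (rho (DD K j i)) ((-j.1, j.1 - (n + 1)) + c) ((-i.1, i.1 - n) + c) * s := by
  rfl

theorem udiff_zero (c : ℤ × ℤ) (n : ℤ) (f : ℤ × Fin 2 →₀ S K) (q : ℤ) :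
    (TT K).udiff c n f (q, 0) =
      entry (rho (ee K 0)) ((-q, q - (n + 1)) + c) ((-(q - 1), q - 1 - n) + c) * f (q - 1, 0) +
      entry (rho (ff K 0)) ((-q, q - (n + 1)) + c) ((-q, q - n) + c) * f (q, 0) := by
  rw [udiff_apply, sum_two f _ (fun i => mul_zero _) q]
  · have h1 : ∀ k, DD K (q, 0) (q - 1, k) = al K 0 k := fun k => by
      rw [DD, if_pos (by simp)]
    have h2 : ∀ k, DD K (q, 0) (q, k) = be K 0 k := fun k => by
      rw [DD, if_neg (by simp), if_pos rfl]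
    simp [h1, h2, al, be, entry_zero]
  · intro i s h1 h2
    rw [DD_eq_zero h1 h2, map_zero, entry_zero, zero_mul]

theorem udiff_one (c : ℤ × ℤ) (n : ℤ) (f : ℤ × Fin 2 →₀ S K) (q : ℤ) :
    (TT K).udiff c n f (q, 1) =
      (entry (rho (ee K 1)) ((-q, q - (n + 1)) + c) ((-(q - 1), q - 1 - n) + c) * f (q - 1, 0) +
      entry (rho (ee K 0)) ((-q, q - (n + 1)) + c) ((-(q - 1), q - 1 - n) + c) * f (q - 1, 1)) +
      (entry (rho (ff K 1)) ((-q, q - (n + 1)) + c) ((-q, q - n) + c) * f (q, 0) +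
      entry (rho (ff K 0)) ((-q, q - (n + 1)) + c) ((-q, q - n) + c) * f (q, 1)) := by
  rw [udiff_apply, sum_two f _ (fun i => mul_zero _) q]
  · have h1 : ∀ k, DD K (q, 1) (q - 1, k) = al K 1 k := fun k => by
      rw [DD, if_pos (by simp)]
    have h2 : ∀ k, DD K (q, 1) (q, k) = be K 1 k := fun k => by
      rw [DD, if_neg (by simp), if_pos rfl]
    simp [h1, h2, al, be]
  · intro i s h1 h2
    rw [DD_eq_zero h1 h2, map_zero, entry_zero, zero_mul]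

/-- The differential vanishes at the rows outside of `{0, 1}²`. -/
theorem udiff_row (c : ℤ × ℤ) (n : ℤ) (f : ℤ × Fin 2 →₀ S K) (j : ℤ × Fin 2)
    (h : ∀ r, toZ r ≠ (-j.1, j.1 - (n + 1)) + c) : (TT K).udiff c n f j = 0 := by
  rw [udiff_apply]
  refine Finset.sum_eq_zero fun i _ => ?_
  change entry (rho (DD K j i)) ((-j.1, j.1 - (n + 1)) + c) ((-i.1, i.1 - n) + c) * f i = 0
  rw [entry_row _ h, zero_mul]

/-- From the index `|c| - 1` to the index `|c|`. -/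
theorem udiff_top (c : ℤ × ℤ) (n : ℤ) (hn : n + 1 = c.1 + c.2) (f : ℤ × Fin 2 →₀ S K) :
    (TT K).udiff c n f (c.1, 0) = -X (Sum.inl 1) * f (c.1 - 1, 0) + -X (Sum.inr 1) * f (c.1, 0) ∧
    (TT K).udiff c n f (c.1, 1) = (X (Sum.inl 0) * f (c.1 - 1, 0) +
      -X (Sum.inl 1) * f (c.1 - 1, 1)) + (X (Sum.inr 0) * f (c.1, 0) +
      -X (Sum.inr 1) * f (c.1, 1)) := by
  have e1 : ((-c.1, c.1 - (n + 1)) + c : ℤ × ℤ) = toZ (0, 0) := by
    ext <;> simp [toZ]; omega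
  have e2 : ((-(c.1 - 1), c.1 - 1 - n) + c : ℤ × ℤ) = toZ (1, 0) := by
    ext <;> simp [toZ]; omega
  have e3 : ((-c.1, c.1 - n) + c : ℤ × ℤ) = toZ (0, 1) := by
    ext <;> simp [toZ]; omega
  constructor
  · rw [udiff_zero, e1, e2, e3, entry_e0, entry_f0]
    simp
  · rw [udiff_one, e1, e2, e3, entry_e0, entry_e1, entry_f0, entry_f1]
    simp

/-- From the index `|c| - 2` to the index `|c| - 1`. -/
theorem udiff_mid (c : ℤ × ℤ) (n : ℤ) (hn : n + 2 = c.1 + c.2) (f : ℤ × Fin 2 →₀ S K) :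
    (TT K).udiff c n f (c.1, 0) = -X (Sum.inl 1) * f (c.1 - 1, 0) ∧
    (TT K).udiff c n f (c.1, 1) = (X (Sum.inl 0) * f (c.1 - 1, 0) +
      -X (Sum.inl 1) * f (c.1 - 1, 1)) ∧
    (TT K).udiff c n f (c.1 - 1, 0) = X (Sum.inr 1) * f (c.1 - 1, 0) ∧
    (TT K).udiff c n f (c.1 - 1, 1) = -X (Sum.inr 0) * f (c.1 - 1, 0) +
      X (Sum.inr 1) * f (c.1 - 1, 1) := by
  have e1 : ((-c.1, c.1 - (n + 1)) + c : ℤ × ℤ) = toZ (0, 1) := by
    ext <;> simp [toZ]; omega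
  have e2 : ((-(c.1 - 1), c.1 - 1 - n) + c : ℤ × ℤ) = toZ (1, 1) := by
    ext <;> simp [toZ]; omega
  have e3 : ∀ r, toZ r ≠ ((-c.1, c.1 - n) + c : ℤ × ℤ) := toZ_ne (by simp; omega)
  have e4 : ((-(c.1 - 1), c.1 - 1 - (n + 1)) + c : ℤ × ℤ) = toZ (1, 0) := by
    ext <;> simp [toZ]; omega
  have e5 : ∀ r, toZ r ≠ ((-(c.1 - 1 - 1), c.1 - 1 - 1 - n) + c : ℤ × ℤ) :=
    toZ_ne (by simp; omega)
  refine ⟨?_, ?_, ?_, ?_⟩
  · rw [udiff_zero, e1, e2, entry_e0, entry_col _ e3, zero_mul, add_zero]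
  · rw [udiff_one, e1, e2, entry_e0, entry_e1, entry_col _ e3, entry_col _ e3]
    simp
  · rw [udiff_zero, e4, e2, entry_f0, entry_col _ e5]
    simp
  · rw [udiff_one, e4, e2, entry_f0, entry_f1, entry_col _ e5, entry_col _ e5]
    simp

/-! ### Chains -/

theorem inU_toZ {a : ℤ × ℤ} {b : ℤ × ℤ} {f : S K} (r : Fin 2 × Fin 2) (h : b = toZ r) :
    InU a b f ↔ f ∈ Spiece K (a - toZ r) := by
  constructor
  · rintro (h1 | ⟨_, h1⟩)
    · rw [h1]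
      exact Submodule.zero_mem _
    · rw [h] at h1
      exact h1
  · intro h1
    exact Or.inr ⟨⟨r, h.symm⟩, by rw [h]; exact h1⟩

theorem inU_zero (a b : ℤ × ℤ) : InU a b (0 : S K) := Or.inl rfl

theorem eq_zero_of_inU {a : ℤ × ℤ} {b : ℤ × ℤ} {f : S K} (h : ∀ r, toZ r ≠ b)
    (hf : InU a b f) : f = 0 := by
  rcases hf with h1 | ⟨⟨r, hr⟩, _⟩
  · exact h1
  · exact absurd hr (h r)

theorem eq_zero_of_slot {c : ℤ × ℤ} {n : ℤ} {a : ℤ × ℤ} {f : ℤ × Fin 2 →₀ S K}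
    (hf : (TT K).IsChain c n a f) {i : ℤ × Fin 2} (h : ∀ r, toZ r ≠ (-i.1, i.1 - n) + c) :
    f i = 0 := eq_zero_of_inU h (hf i)

theorem mem_of_slot {c : ℤ × ℤ} {n : ℤ} {a : ℤ × ℤ} {f : ℤ × Fin 2 →₀ S K}
    (hf : (TT K).IsChain c n a f) {i : ℤ × Fin 2} (r : Fin 2 × Fin 2)
    (h : (-i.1, i.1 - n) + c = toZ r) : f i ∈ Spiece K (a - toZ r) :=
  (inU_toZ r h).1 (hf i)

end Pool.Agent.K7.H10.TR
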