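import Pool.Agent.K7.H10.TR.Sheaf

/-!
# The structure sheaf of a diagonal tangent vector is not a sum of box products
-/

set_option autoImplicit false

namespace Pool.Agent.K7.H10.TR

universe u

variable {K : Type u} [Field K]

open TensorProduct

theorem FZ_x0 (a b : ℤ) (m : DualNumber K) : (FZ K).x 0 a b m = m := by
  change xi K (Sum.inl 0) * m = m
  have : xi K (Sum.inl 0) = 1 := rfl
  rw [this, one_mul]

theorem FZ_y0 (a b : ℤ) (m : DualNumber K) : (FZ K).y 0 a b m = m := by
  change xi K (Sum.inr 0) * m = m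
  have : xi K (Sum.inr 0) = 1 := rfl
  rw [this, one_mul]

theorem FZ_x1 (a b : ℤ) (m : DualNumber K) : (FZ K).x 1 a b m = DualNumber.eps * m := rfl

theorem FZ_y1 (a b : ℤ) (m : DualNumber K) : (FZ K).y 1 a b m = DualNumber.eps * m := rfl

theorem span_nat (n m : ℕ) (v : DualNumber K) :
    (FZ K).Span (fun _ : Fin 2 => ((0, 0) : ℤ × ℤ))
      (fun i => (![1, DualNumber.eps] i : DualNumber K)) (n : ℤ) (m : ℤ) v := by
  induction n generalizing v with
  | zero =>
    induction m generalizing v with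
    | zero =>
      have hv : v = v.fst • (![1, DualNumber.eps] 0 : DualNumber K) +
          v.snd • (![1, DualNumber.eps] 1 : DualNumber K) := by
        ext <;> simp
      rw [hv]
      exact BMod.Span.add 0 0 _ _ (BMod.Span.smul 0 0 _ _ (BMod.Span.gen 0))
        (BMod.Span.smul 0 0 _ _ (BMod.Span.gen 1))
    | succ m ih =>
      have := BMod.Span.y 0 _ _ _ (ih v)
      rw [FZ_y0] at this
      simpa using this
  | succ n ih =>
    have := BMod.Span.x 0 _ _ _ (ih v)
    rw [FZ_x0] at this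
    simpa using this

theorem coherent : (FZ K).Coherent := by
  refine ⟨2, fun _ => (0, 0), fun i => (![1, DualNumber.eps] i : DualNumber K), 0, ?_⟩
  intro a b ha hb m
  obtain ⟨n, rfl⟩ := Int.eq_ofNat_of_zero_le ha
  obtain ⟨k, rfl⟩ := Int.eq_ofNat_of_zero_le hb
  exact span_nat n k m

/-! ### Tensor products of vector spaces -/

section Tensor

variable {A B : Type u} [AddCommGroup A] [Module K A] [AddCommGroup B] [Module K B]

theorem exists_dual_one {p : A} (hp : p ≠ 0) : ∃ f : A →ₗ[K] K, f p = 1 := by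
  by_contra h
  push Not at h
  apply hp
  rw [← Module.forall_dual_apply_eq_zero_iff K p]
  intro f
  by_contra hf
  apply h ((f p)⁻¹ • f)
  rw [LinearMap.smul_apply, smul_eq_mul, inv_mul_cancel₀ hf]

/-- The evaluation of a functional on the second factor. -/
noncomputable def evr (f : B →ₗ[K] K) : A ⊗[K] B →ₗ[K] A :=
  (TensorProduct.rid K A).toLinearMap ∘ₗ f.lTensor A

theorem evr_tmul (f : B →ₗ[K] K) (p : A) (q : B) : evr f (p ⊗ₜ[K] q) = f q • p := by
  simp [evr]

theorem tmul_ne {p : A} {q : B} (hp : p ≠ 0) (hq : q ≠ 0) : p ⊗ₜ[K] q ≠ 0 := by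
  intro h
  obtain ⟨f, hf⟩ := exists_dual_one (K := K) hq
  have := congrArg (evr f) h
  rw [evr_tmul, hf, one_smul, map_zero] at this
  exact hp this

end Tensor

/-! ### The summands -/

theorem proj_ext {J : Type u} {P Q : J → GMod K} {a b : ℤ} {s t : SumBox P Q a b}
    (h : ∀ j, s.proj j = t.proj j) : s = t :=
  DFinsupp.ext (β := fun j => Box (P j) (Q j) a b) h

theorem proj_zero {J : Type u} {P Q : J → GMod K} {a b : ℤ} (j : J) :
    (0 : SumBox P Q a b).proj j = 0 := rfl

theorem summand {J : Type u} {P Q : J → GMod K} {c : ℤ}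
    {e : ∀ a b : ℤ, (FZ K).carrier a b ≃ₗ[K] SumBox P Q a b}
    (he : ∀ a b, c ≤ a → c ≤ b → ∀ (i : Fin 2) (m : (FZ K).carrier a b) (j : J),
      (e (a + 1) b ((FZ K).x i a b m)).proj j = Box.x i a b ((e a b m).proj j) ∧
      (e a (b + 1) ((FZ K).y i a b m)).proj j = Box.y i a b ((e a b m).proj j))
    (j : J) {a b : ℤ} (ha : c ≤ a) (hb : c ≤ b) (p : (P j).carrier a) (q : (Q j).carrier b) :
    (p ≠ 0 → q ≠ 0 → (P j).z 0 a p ≠ 0 ∧ (Q j).z 0 b q ≠ 0) ∧
    (P j).z 1 a p ⊗ₜ[K] (Q j).z 0 b q = (P j).z 0 a p ⊗ₜ[K] (Q j).z 1 b q ∧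
    (P j).z 1 (a + 1) ((P j).z 1 a p) ⊗ₜ[K] q = 0 := by
  classical
  set t : Box (P j) (Q j) a b := p ⊗ₜ[K] q with ht
  set s : SumBox P Q a b := DFinsupp.single (β := fun j => Box (P j) (Q j) a b) j t with hs
  have sj : s.proj j = t := DFinsupp.single_eq_same (β := fun j => Box (P j) (Q j) a b)
  have sk : ∀ k, k ≠ j → s.proj k = 0 := fun k hk =>
    DFinsupp.single_eq_of_ne (β := fun j => Box (P j) (Q j) a b) hk
  set m : DualNumber K := (e a b).symm s with hm
  have em : e a b m = s := by rw [hm, LinearEquiv.apply_symm_apply]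
  have x0 : ∀ (i : Fin 2) (k : J), Box.x i a b (0 : Box (P k) (Q k) a b) = 0 := fun i k =>
    LinearMap.map_zero (((P k).z i a).rTensor ((Q k).carrier b))
  have y0 : ∀ (i : Fin 2) (k : J), Box.y i a b (0 : Box (P k) (Q k) a b) = 0 := fun i k =>
    LinearMap.map_zero (((Q k).z i b).lTensor ((P k).carrier a))
  refine ⟨fun hp hq => ⟨fun h => ?_, fun h => ?_⟩, ?_, ?_⟩
  · have h0 : e (a + 1) b ((FZ K).x 0 a b m) = 0 := by
      refine proj_ext fun k => ?_
      rw [(he a b ha hb 0 m k).1, em, proj_zero]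
      by_cases hk : k = j
      · subst hk
        rw [sj]
        change ((P k).z 0 a).rTensor ((Q k).carrier b) (p ⊗ₜ[K] q) = _
        rw [LinearMap.rTensor_tmul, h, TensorProduct.zero_tmul]
        rfl
      · rw [sk k hk, x0]
    rw [LinearEquiv.map_eq_zero_iff, FZ_x0] at h0
    have h1 : e a b m = 0 := (e a b).map_eq_zero_iff.2 h0
    rw [← em, h1, proj_zero] at sj
    exact tmul_ne hp hq sj.symm
  · have h0 : e a (b + 1) ((FZ K).y 0 a b m) = 0 := by
      refine proj_ext fun k => ?_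
      rw [(he a b ha hb 0 m k).2, em, proj_zero]
      by_cases hk : k = j
      · subst hk
        rw [sj]
        change ((Q k).z 0 b).lTensor ((P k).carrier a) (p ⊗ₜ[K] q) = _
        rw [LinearMap.lTensor_tmul, h, TensorProduct.tmul_zero]
        rfl
      · rw [sk k hk, y0]
    rw [LinearEquiv.map_eq_zero_iff, FZ_y0] at h0
    have h1 : e a b m = 0 := (e a b).map_eq_zero_iff.2 h0
    rw [← em, h1, proj_zero] at sj
    exact tmul_ne hp hq sj.symm
  · have h1 := (he a (b + 1) ha (by omega) 1 ((FZ K).y 0 a b m) j).1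
    rw [(he a b ha hb 0 m j).2, em, sj] at h1
    have h2 := (he (a + 1) b (by omega) hb 1 ((FZ K).x 0 a b m) j).2
    rw [(he a b ha hb 0 m j).1, em, sj] at h2
    have h3 : Box.x 1 a (b + 1) (Box.y 0 a b t) = Box.y 1 (a + 1) b (Box.x 0 a b t) := by
      rw [← h1, ← h2]
      congr 1
    exact h3
  · have h1 := (he (a + 1) b (by omega) hb 1 ((FZ K).x 1 a b m) j).1
    rw [(he a b ha hb 1 m j).1, em, sj] at h1
    have h2 : (FZ K).x 1 (a + 1) b ((FZ K).x 1 a b m) = 0 := by
      change (DualNumber.eps : DualNumber K) * (DualNumber.eps * m) = 0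
      rw [← mul_assoc, DualNumber.eps_mul_eps, zero_mul]
    rw [h2, map_zero, proj_zero] at h1
    exact h1.symm

theorem not_sum (J : Type u) (P Q : J → GMod K) : ¬ (FZ K).IsSumOfBoxProducts P Q := by
  rintro ⟨c, e, he⟩
  have key : ∀ (j : J) (p : (P j).carrier c) (q : (Q j).carrier c),
      (P j).z 1 c p ⊗ₜ[K] q = 0 := by
    intro j p q
    by_cases hp : p = 0
    · rw [hp, map_zero, TensorProduct.zero_tmul]
    by_cases hq : q = 0
    · rw [hq, TensorProduct.tmul_zero]
    obtain ⟨h0, h1, h2⟩ := summand he j le_rfl le_rfl p q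
    obtain ⟨hp0, hq0⟩ := h0 hp hq
    obtain ⟨f, hf⟩ := exists_dual_one (K := K) hq0
    have h3 := congrArg (evr f) h1
    rw [evr_tmul, evr_tmul, hf, one_smul] at h3
    obtain ⟨g, hg⟩ := exists_dual_one (K := K) hq
    have h4 := congrArg (evr g) h2
    rw [evr_tmul, hg, one_smul, map_zero, h3, map_smul, (P j).comm 1 0 c p, h3, map_smul,
      smul_smul] at h4
    obtain ⟨h5, -, -⟩ := summand he j (by omega : c ≤ c + 1) le_rfl ((P j).z 0 c p) q
    have h6 := (h5 hp0 hq).1
    have h7 := (smul_eq_zero.1 h4).resolve_right h6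
    have h8 : f ((Q j).z 1 c q) = 0 := by simpa using h7
    rw [h3, h8, zero_smul, TensorProduct.zero_tmul]
  have key2 : ∀ (j : J) (t : (P j).carrier c ⊗[K] (Q j).carrier c),
      ((P j).z 1 c).rTensor _ t = 0 := by
    intro j t
    induction t using TensorProduct.induction_on with
    | zero => rw [map_zero]
    | tmul p q => rw [LinearMap.rTensor_tmul, key]
    | add s t hs ht => rw [map_add, hs, ht, add_zero]
  have h0 : e (c + 1) c ((FZ K).x 1 c c (1 : DualNumber K)) = 0 := by
    refine proj_ext fun j => ?_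
    rw [(he c c le_rfl le_rfl 1 _ j).1]
    exact key2 j _
  rw [LinearEquiv.map_eq_zero_iff] at h0
  have h1 : (DualNumber.eps : DualNumber K) * 1 = 0 := h0
  rw [mul_one] at h1
  have := congrArg TrivSqZeroExt.snd h1
  simp at this

end Pool.Agent.K7.H10.TR
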