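import Pool.Agent.K7.H10.TR.Defs

/-!
# The Koszul complex of `x_1 - t x_0`, `y_1 - t y_0` over `K[t]/t²`, in bidegrees
-/

set_option autoImplicit false

namespace Pool.Agent.K7.H10.TR

universe u

variable {K : Type u} [Field K]

open MvPolynomial

variable (K) in
/-- The homogeneous component `S_a`. -/
noncomputable def Spiece (a : ℤ × ℤ) : Submodule K (S K) where
  carrier := {f | InS a f}
  zero_mem' := by simp [InS]
  add_mem' := by
    classical
    intro f g hf hg m hm
    rcases Finset.mem_union.1 (MvPolynomial.support_add hm) with h | h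
    · exact hf m h
    · exact hg m h
  smul_mem' := by
    intro r f hf m hm
    exact hf m (MvPolynomial.support_smul hm)

theorem mem_Spiece {a : ℤ × ℤ} {f : S K} : f ∈ Spiece K a ↔ ∀ m ∈ f.support,
    ((m (Sum.inl 0) + m (Sum.inl 1) : ℕ) : ℤ) = a.1 ∧
    ((m (Sum.inr 0) + m (Sum.inr 1) : ℕ) : ℤ) = a.2 := Iff.rfl

theorem X_inl_mul_mem {a : ℤ × ℤ} {f : S K} (i : Fin 2) :
    X (Sum.inl i) * f ∈ Spiece K (a + (1, 0)) ↔ f ∈ Spiece K a := by
  rw [mem_Spiece, mem_Spiece, support_X_mul]
  simp only [Finset.mem_map, addLeftEmbedding_apply, forall_exists_index, and_imp,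
    forall_apply_eq_imp_iff₂]
  refine forall₂_congr fun m _ => ?_
  fin_cases i <;> simp <;> intro _ <;> constructor <;> intro h1 <;> linarith

theorem X_inr_mul_mem {a : ℤ × ℤ} {f : S K} (i : Fin 2) :
    X (Sum.inr i) * f ∈ Spiece K (a + (0, 1)) ↔ f ∈ Spiece K a := by
  rw [mem_Spiece, mem_Spiece, support_X_mul]
  simp only [Finset.mem_map, addLeftEmbedding_apply, forall_exists_index, and_imp,
    forall_apply_eq_imp_iff₂]
  refine forall₂_congr fun m _ => ?_
  fin_cases i <;> simp <;> intro _ <;> constructor <;> intro h1 <;> linarith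

theorem X_inl_mul_mem' {a : ℤ × ℤ} {f : S K} (i : Fin 2) (h : f ∈ Spiece K (a - (1, 0))) :
    X (Sum.inl i) * f ∈ Spiece K a := by
  have := (X_inl_mul_mem (a := a - (1, 0)) (f := f) i).2 h
  rwa [sub_add_cancel] at this

theorem X_inr_mul_mem' {a : ℤ × ℤ} {f : S K} (i : Fin 2) (h : f ∈ Spiece K (a - (0, 1))) :
    X (Sum.inr i) * f ∈ Spiece K a := by
  have := (X_inr_mul_mem (a := a - (0, 1)) (f := f) i).2 h
  rwa [sub_add_cancel] at this

theorem mem_of_X_inl_mul {a : ℤ × ℤ} {f : S K} (i : Fin 2) (h : X (Sum.inl i) * f ∈ Spiece K a) :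
    f ∈ Spiece K (a - (1, 0)) := by
  rw [← X_inl_mul_mem i, sub_add_cancel]
  exact h

/-- The sequence `y_1, x_1` is regular on `S`. -/
theorem koszul_S {a : ℤ × ℤ} {u v : S K} (hu : u ∈ Spiece K a)
    (h : X (Sum.inr 1) * u + X (Sum.inl 1) * v = 0) :
    ∃ w ∈ Spiece K (a - (1, 0)), u = X (Sum.inl 1) * w ∧ v = -(X (Sum.inr 1) * w) := by
  have hp : Prime (X (Sum.inl 1) : S K) := MvPolynomial.X_prime
  have hdvd : (X (Sum.inl 1) : S K) ∣ X (Sum.inr 1) * u :=
    ⟨-v, by linear_combination h⟩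
  rcases hp.dvd_or_dvd hdvd with h1 | h1
  · exfalso
    rw [MvPolynomial.X_dvd_X] at h1
    simp at h1
  · obtain ⟨w, rfl⟩ := h1
    refine ⟨w, mem_of_X_inl_mul 1 hu, rfl, ?_⟩
    have h2 : (X (Sum.inl 1) : S K) * (v + X (Sum.inr 1) * w) = 0 := by linear_combination h
    rcases mul_eq_zero.1 h2 with h3 | h3
    · exact absurd h3 (MvPolynomial.X_ne_zero _)
    · linear_combination h3

/-- `S_a` is spanned by `x_0^{a_1} y_0^{a_2}` modulo `x_1`, `y_1`. -/
theorem decomp {a : ℤ × ℤ} {f : S K} (hf : f ∈ Spiece K a) :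
    ∃ (r : K) (v u : S K), v ∈ Spiece K (a - (1, 0)) ∧ u ∈ Spiece K (a - (0, 1)) ∧
      f = r • (X (Sum.inl 0) ^ a.1.toNat * X (Sum.inr 0) ^ a.2.toNat) + X (Sum.inl 1) * v +
        X (Sum.inr 1) * u := by
  -- the set of such polynomials is a subspace
  let P : Submodule K (S K) :=
    { carrier := {f | ∃ (r : K) (v u : S K), v ∈ Spiece K (a - (1, 0)) ∧
        u ∈ Spiece K (a - (0, 1)) ∧
        f = r • (X (Sum.inl 0) ^ a.1.toNat * X (Sum.inr 0) ^ a.2.toNat) + X (Sum.inl 1) * v +
          X (Sum.inr 1) * u}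
      zero_mem' := ⟨0, 0, 0, Submodule.zero_mem _, Submodule.zero_mem _, by simp⟩
      add_mem' := by
        rintro f g ⟨r, v, u, hv, hu, rfl⟩ ⟨r', v', u', hv', hu', rfl⟩
        exact ⟨r + r', v + v', u + u', Submodule.add_mem _ hv hv', Submodule.add_mem _ hu hu',
          by rw [add_smul]; ring⟩
      smul_mem' := by
        rintro c f ⟨r, v, u, hv, hu, rfl⟩
        exact ⟨c * r, c • v, c • u, Submodule.smul_mem _ c hv, Submodule.smul_mem _ c hu,
          by simp only [smul_add, mul_smul, mul_smul_comm]⟩ }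
  suffices h : f ∈ P from h
  rw [← support_sum_monomial_coeff f]
  refine Submodule.sum_mem _ fun m hm => ?_
  obtain ⟨h1, h2⟩ := hf m hm
  by_cases hx : 1 ≤ m (Sum.inl 1)
  · refine ⟨0, monomial (m - Finsupp.single (Sum.inl 1) 1) (coeff m f), 0, ?_,
      Submodule.zero_mem _, ?_⟩
    · have hmm : Finsupp.single (Sum.inl 1) 1 + (m - Finsupp.single (Sum.inl 1) 1) = m :=
        add_tsub_cancel_of_le (by simpa using hx)
      refine mem_of_X_inl_mul 1 ?_
      rw [X, monomial_mul, hmm, one_mul]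
      intro m' hm'
      have := support_monomial_subset hm'
      rw [Finset.mem_singleton] at this
      subst this
      exact ⟨h1, h2⟩
    · have hmm : Finsupp.single (Sum.inl 1) 1 + (m - Finsupp.single (Sum.inl 1) 1) = m :=
        add_tsub_cancel_of_le (by simpa using hx)
      rw [X, X, X, X, monomial_mul, hmm, one_mul]
      simp
  · by_cases hy : 1 ≤ m (Sum.inr 1)
    · have hmm : Finsupp.single (Sum.inr 1) 1 + (m - Finsupp.single (Sum.inr 1) 1) = m :=
        add_tsub_cancel_of_le (by simpa using hy)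
      refine ⟨0, 0, monomial (m - Finsupp.single (Sum.inr 1) 1) (coeff m f),
        Submodule.zero_mem _, ?_, ?_⟩
      · rw [← X_inr_mul_mem 1, sub_add_cancel]
        rw [X, monomial_mul, hmm, one_mul]
        intro m' hm'
        have := support_monomial_subset hm'
        rw [Finset.mem_singleton] at this
        subst this
        exact ⟨h1, h2⟩
      · rw [X, X, X, X, monomial_mul, hmm, one_mul]
        simp
    · refine ⟨coeff m f, 0, 0, Submodule.zero_mem _, Submodule.zero_mem _, ?_⟩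
      have e1 : m (Sum.inl 1) = 0 := by omega
      have e2 : m (Sum.inr 1) = 0 := by omega
      have e3 : m (Sum.inl 0) = a.1.toNat := by omega
      have e4 : m (Sum.inr 0) = a.2.toNat := by omega
      have hm' : m = Finsupp.single (Sum.inl 0) a.1.toNat + Finsupp.single (Sum.inr 0) a.2.toNat := by
        ext s
        rcases s with s | s <;> fin_cases s <;> simp [e1, e2, e3, e4]
      rw [X_pow_eq_monomial, X_pow_eq_monomial, monomial_mul, ← hm', smul_monomial]
      simp

theorem pow_mul_pow_mem {a : ℤ × ℤ} (h1 : 0 ≤ a.1) (h2 : 0 ≤ a.2) :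
    (X (Sum.inl 0) ^ a.1.toNat * X (Sum.inr 0) ^ a.2.toNat : S K) ∈ Spiece K a := by
  intro m hm
  rw [X_pow_eq_monomial, X_pow_eq_monomial, monomial_mul] at hm
  have := support_monomial_subset hm
  rw [Finset.mem_singleton] at this
  subst this
  simp [h1, h2]

end Pool.Agent.K7.H10.TR
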