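import Pool.Agent.K7.H10.TR.Monad

/-!
# The structure sheaf of a diagonal tangent vector and its Beilinson monads
-/

set_option autoImplicit false

namespace Pool.Agent.K7.H10.TR

universe u

variable {K : Type u} [Field K]

open MvPolynomial

/-! ### The sheaf -/

variable (K) in
/-- The values of the variables in `K[ε]`: `x_0, y_0 ↦ 1` and `x_1, y_1 ↦ ε`. -/
def xi : Fin 2 ⊕ Fin 2 → DualNumber K :=
  Sum.elim ![1, DualNumber.eps] ![1, DualNumber.eps]

variable (K) in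
/-- The structure sheaf of the subscheme `Z = Spec K[ε]` of `ℙ¹ × ℙ¹`, embedded by
`([1 : ε], [1 : ε])`: the graded module with all components `K[ε]`, on which `x_0`, `y_0` act as the
identity and `x_1`, `y_1` as multiplication by `ε`. -/
noncomputable def FZ : BMod K where
  carrier _ _ := DualNumber K
  x i _ _ := LinearMap.mulLeft K (xi K (Sum.inl i))
  y i _ _ := LinearMap.mulLeft K (xi K (Sum.inr i))
  xx _ _ _ _ _ := mul_left_comm _ _ _
  yy _ _ _ _ _ := mul_left_comm _ _ _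
  xy _ _ _ _ _ := mul_left_comm _ _ _

/-- The evaluation. -/
noncomputable def ev : S K →ₐ[K] DualNumber K := aeval (xi K)

theorem ev_X (s : Fin 2 ⊕ Fin 2) : ev (X s : S K) = xi K s := aeval_X _ _

theorem ev_x0 : ev (X (Sum.inl 0) : S K) = 1 := by rw [ev_X]; rfl
theorem ev_x1 : ev (X (Sum.inl 1) : S K) = DualNumber.eps := by rw [ev_X]; rfl
theorem ev_y0 : ev (X (Sum.inr 0) : S K) = 1 := by rw [ev_X]; rfl
theorem ev_y1 : ev (X (Sum.inr 1) : S K) = DualNumber.eps := by rw [ev_X]; rfl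

theorem ev_boundary (v0 v1 u0 u1 : S K) :
    ev (-X (Sum.inl 1) * v0 + -X (Sum.inr 1) * u0) +
      ev ((X (Sum.inl 0) * v0 + -X (Sum.inl 1) * v1) +
        (X (Sum.inr 0) * u0 + -X (Sum.inr 1) * u1)) * DualNumber.eps = 0 := by
  simp only [map_add, map_mul, map_neg, ev_x0, ev_x1, ev_y0, ev_y1]
  have h : (DualNumber.eps : DualNumber K) * DualNumber.eps = 0 := DualNumber.eps_mul_eps
  linear_combination (-(ev v1) - ev u1) * h

theorem ev_pow (a : ℤ × ℤ) :
    ev (X (Sum.inl 0) ^ a.1.toNat * X (Sum.inr 0) ^ a.2.toNat : S K) = 1 := by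
  rw [map_mul, map_pow, map_pow, ev_x0, ev_y0, one_pow, one_pow, one_mul]

theorem dual_eq_zero {r0 r1 : K}
    (h : (r0 • (1 : DualNumber K) + (r1 • (1 : DualNumber K)) * DualNumber.eps) = 0) :
    r0 = 0 ∧ r1 = 0 := by
  constructor
  · have := congrArg TrivSqZeroExt.fst h
    simpa using this
  · have := congrArg TrivSqZeroExt.snd h
    simpa using this

theorem exists_boundary {a : ℤ × ℤ} {f0 f1 : S K} (h0 : f0 ∈ Spiece K a) (h1 : f1 ∈ Spiece K a)
    (h : ev f0 + ev f1 * DualNumber.eps = 0) :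
    ∃ v0 ∈ Spiece K (a - (1, 0)), ∃ v1 ∈ Spiece K (a - (1, 0)), ∃ u0 ∈ Spiece K (a - (0, 1)),
      ∃ u1 ∈ Spiece K (a - (0, 1)),
      f0 = -X (Sum.inl 1) * v0 + -X (Sum.inr 1) * u0 ∧
      f1 = (X (Sum.inl 0) * v0 + -X (Sum.inl 1) * v1) +
        (X (Sum.inr 0) * u0 + -X (Sum.inr 1) * u1) := by
  obtain ⟨r0, v, u, hv, hu, e0⟩ := decomp h0
  have h1' : f1 + X (Sum.inl 0) * v + X (Sum.inr 0) * u ∈ Spiece K a :=
    Submodule.add_mem _ (Submodule.add_mem _ h1 (X_inl_mul_mem' 0 hv)) (X_inr_mul_mem' 0 hu)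
  obtain ⟨r1, v', u', hv', hu', e1⟩ := decomp h1'
  have hb := ev_boundary (-v) (-v') (-u) (-u')
  have key : r0 • (1 : DualNumber K) + (r1 • (1 : DualNumber K)) * DualNumber.eps = 0 := by
    have e1' : f1 = r1 • (X (Sum.inl 0) ^ a.1.toNat * X (Sum.inr 0) ^ a.2.toNat) +
        ((X (Sum.inl 0) * -v + -X (Sum.inl 1) * -v') +
        (X (Sum.inr 0) * -u + -X (Sum.inr 1) * -u')) := by
      linear_combination e1
    have e0' : f0 = r0 • (X (Sum.inl 0) ^ a.1.toNat * X (Sum.inr 0) ^ a.2.toNat) +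
        (-X (Sum.inl 1) * -v + -X (Sum.inr 1) * -u) := by
      linear_combination e0
    rw [e0', e1', map_add ev (r0 • _) _, map_add ev (r1 • _) _, map_smul, map_smul, ev_pow] at h
    linear_combination h - hb
  obtain ⟨rfl, rfl⟩ := dual_eq_zero key
  refine ⟨-v, Submodule.neg_mem _ hv, -v', Submodule.neg_mem _ hv', -u, Submodule.neg_mem _ hu,
    -u', Submodule.neg_mem _ hu', ?_, ?_⟩
  · rw [zero_smul] at e0
    linear_combination e0
  · rw [zero_smul] at e1
    linear_combination e1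

/-! ### The monads -/

/-- The map to the sheaf. -/
noncomputable def phi (p : ℤ) : (ℤ × Fin 2 →₀ S K) →ₗ[K] DualNumber K :=
  ev.toLinearMap ∘ₗ Finsupp.lapply (p, 0) +
    LinearMap.mulRight K (DualNumber.eps : DualNumber K) ∘ₗ ev.toLinearMap ∘ₗ
      Finsupp.lapply (p, 1)

theorem phi_apply (p : ℤ) (f : ℤ × Fin 2 →₀ S K) :
    phi p f = ev (f (p, 0)) + ev (f (p, 1)) * DualNumber.eps := rfl

theorem phi_smul (p : ℤ) (g : S K) (f : ℤ × Fin 2 →₀ S K) : phi p (g • f) = ev g * phi p f := by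
  rw [phi_apply, phi_apply, Finsupp.smul_apply, Finsupp.smul_apply, smul_eq_mul, smul_eq_mul,
    map_mul, map_mul]
  ring

/-- Index `|c| - 1`. -/
theorem exact_mid (c : ℤ × ℤ) (n : ℤ) (hn : n + 2 = c.1 + c.2) (a : ℤ × ℤ)
    (f : ℤ × Fin 2 →₀ S K) (hf : (TT K).IsCycle c (n + 1) a f) : (TT K).IsBoundary c n a f := by
  obtain ⟨hf1, hf2⟩ := hf
  obtain ⟨c0, c1⟩ := udiff_top c (n + 1) (by omega) f
  have c0' := (hf2 (c.1, 0)).symm.trans c0
  have c1' := (hf2 (c.1, 1)).symm.trans c1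
  have hu : ∀ k, f (c.1, k) ∈ Spiece K (a - (0, 1)) := fun k =>
    mem_of_slot hf1 (0, 1) (by ext <;> simp [toZ]; omega)
  have c0' : X (Sum.inr 1) * f (c.1, 0) + X (Sum.inl 1) * f (c.1 - 1, 0) = 0 := by
    linear_combination c0'
  obtain ⟨w0, hw0, e1, e2⟩ := koszul_S (hu 0) c0'
  have hw0' : X (Sum.inl 0) * w0 ∈ Spiece K (a - (0, 1)) := X_inl_mul_mem' 0 hw0
  have hu1 : f (c.1, 1) + X (Sum.inl 0) * w0 ∈ Spiece K (a - (0, 1)) :=
    Submodule.add_mem _ (hu 1) hw0'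
  have c1' : X (Sum.inr 1) * (f (c.1, 1) + X (Sum.inl 0) * w0) +
      X (Sum.inl 1) * (f (c.1 - 1, 1) - X (Sum.inr 0) * w0) = 0 := by
    rw [e1, e2] at c1'
    linear_combination c1'
  obtain ⟨w1, hw1, e3, e4⟩ := koszul_S hu1 c1'
  have hsub : (a - (0, 1) - (1, 0) : ℤ × ℤ) = a - toZ (1, 1) := by
    ext <;> simp [toZ]
  rw [hsub] at hw0 hw1
  set g : ℤ × Fin 2 →₀ S K :=
    Finsupp.single (c.1 - 1, 0) (-w0) + Finsupp.single (c.1 - 1, 1) (-w1) with hg
  have g0 : g (c.1 - 1, 0) = -w0 := by simp [hg]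
  have g1 : g (c.1 - 1, 1) = -w1 := by simp [hg]
  have g2 : ∀ i, i.1 ≠ c.1 - 1 → g i = 0 := by
    intro i hi
    rw [hg, Finsupp.add_apply, Finsupp.single_eq_of_ne, Finsupp.single_eq_of_ne, add_zero]
    · exact fun h => hi (by rw [h])
    · exact fun h => hi (by rw [h])
  refine ⟨g, ?_, ?_⟩
  · rintro ⟨p, k⟩
    rw [deg_TT]
    by_cases hp : p = c.1 - 1
    · subst hp
      rw [inU_toZ (1, 1) (by ext <;> simp [toZ]; omega)]
      fin_cases k
      · change g (c.1 - 1, 0) ∈ _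
        rw [g0]
        exact Submodule.neg_mem _ hw0
      · change g (c.1 - 1, 1) ∈ _
        rw [g1]
        exact Submodule.neg_mem _ hw1
    · change InU _ _ (g (p, k))
      rw [g2 _ hp]
      exact inU_zero _ _
  · obtain ⟨d0, d1, d2, d3⟩ := udiff_mid c n hn g
    rw [g0] at d0 d2
    rw [g0, g1] at d1 d3
    rintro ⟨p, k⟩
    by_cases hp : p = c.1
    · subst hp
      fin_cases k
      · change (TT K).udiff c n g (c.1, 0) = f (c.1, 0)
        rw [d0]
        linear_combination -e1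
      · change (TT K).udiff c n g (c.1, 1) = f (c.1, 1)
        rw [d1]
        linear_combination -e3
    · by_cases hp' : p = c.1 - 1
      · subst hp'
        fin_cases k
        · change (TT K).udiff c n g (c.1 - 1, 0) = f (c.1 - 1, 0)
          rw [d2]
          linear_combination -e2
        · change (TT K).udiff c n g (c.1 - 1, 1) = f (c.1 - 1, 1)
          rw [d3]
          linear_combination -e4
      · have hr : ∀ r, toZ r ≠ ((-p, p - (n + 1)) + c : ℤ × ℤ) := toZ_ne (by simp; omega)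
        rw [udiff_row c n g (p, k) hr]
        exact (eq_zero_of_slot hf1 (i := (p, k)) hr).symm

/-- Index `|c| - 2`. -/
theorem exact_low (c : ℤ × ℤ) (n : ℤ) (hn : n + 3 = c.1 + c.2) (a : ℤ × ℤ)
    (f : ℤ × Fin 2 →₀ S K) (hf : (TT K).IsCycle c (n + 1) a f) : f = 0 := by
  obtain ⟨hf1, hf2⟩ := hf
  obtain ⟨d0, d1, -, -⟩ := udiff_mid c (n + 1) (by omega) f
  have d0' := (hf2 (c.1, 0)).symm.trans d0
  have d1' := (hf2 (c.1, 1)).symm.trans d1
  have hX : (-X (Sum.inl 1) : S K) ≠ 0 := neg_ne_zero.2 (MvPolynomial.X_ne_zero _)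
  have w0 : f (c.1 - 1, 0) = 0 := by
    rcases mul_eq_zero.1 d0'.symm with h | h
    · exact absurd h hX
    · exact h
  rw [w0, mul_zero, zero_add] at d1'
  have w1 : f (c.1 - 1, 1) = 0 := by
    rcases mul_eq_zero.1 d1'.symm with h | h
    · exact absurd h hX
    · exact h
  ext1 i
  obtain ⟨p, k⟩ := i
  by_cases hp : p = c.1 - 1
  · subst hp
    fin_cases k
    · exact w0
    · exact w1
  · exact eq_zero_of_slot hf1 (i := (p, k)) (toZ_ne (by simp; omega))

theorem exact_else (c : ℤ × ℤ) (n : ℤ) (hn : n ≠ c.1 + c.2 ∧ n + 1 ≠ c.1 + c.2 ∧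
    n + 2 ≠ c.1 + c.2) (a : ℤ × ℤ)
    (f : ℤ × Fin 2 →₀ S K) (hf : (TT K).IsChain c n a f) : f = 0 := by
  ext1 i
  obtain ⟨p, k⟩ := i
  exact eq_zero_of_slot hf (i := (p, k)) (toZ_ne (by simp; omega))

theorem boundary_zero (c : ℤ × ℤ) (n : ℤ) (a : ℤ × ℤ) :
    (TT K).IsBoundary c n a (0 : ℤ × Fin 2 →₀ S K) :=
  ⟨(0 : ℤ × Fin 2 →₀ S K), fun _ => inU_zero _ _, fun _ => rfl⟩

theorem vanishes (c : ℤ × ℤ) (n : ℤ) (hn : n + 1 ≠ c.1 + c.2) :
    (TT K).HomologyVanishes c n := by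
  refine ⟨0, fun a _ _ f hf => ?_⟩
  by_cases h2 : n + 2 = c.1 + c.2
  · exact exact_mid c n h2 a f hf
  · have hf0 : f = 0 := by
      by_cases h3 : n + 3 = c.1 + c.2
      · exact exact_low c n h3 a f hf
      · exact exact_else c (n + 1) ⟨hn, by omega, by omega⟩ a f hf.1
    rw [hf0]
    exact boundary_zero _ _ _

theorem surj (c : ℤ × ℤ) (n : ℤ) (hn : n + 1 = c.1 + c.2) (a : ℤ × ℤ) (h1 : 0 ≤ a.1)
    (h2 : 0 ≤ a.2) (z : DualNumber K) :
    ∃ f : ℤ × Fin 2 →₀ S K, (TT K).IsCycle c (n + 1) a f ∧ phi c.1 f = z := by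
  have hm : ∀ r : K, r • (X (Sum.inl 0) ^ a.1.toNat * X (Sum.inr 0) ^ a.2.toNat : S K) ∈
      Spiece K a := fun r => Submodule.smul_mem _ r (pow_mul_pow_mem h1 h2)
  set f : ℤ × Fin 2 →₀ S K :=
    Finsupp.single (c.1, 0) (z.fst • (X (Sum.inl 0) ^ a.1.toNat * X (Sum.inr 0) ^ a.2.toNat)) +
    Finsupp.single (c.1, 1) (z.snd • (X (Sum.inl 0) ^ a.1.toNat * X (Sum.inr 0) ^ a.2.toNat))
    with hf
  have f0 : f (c.1, 0) = z.fst • (X (Sum.inl 0) ^ a.1.toNat * X (Sum.inr 0) ^ a.2.toNat) := by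
    simp [hf]
  have f1 : f (c.1, 1) = z.snd • (X (Sum.inl 0) ^ a.1.toNat * X (Sum.inr 0) ^ a.2.toNat) := by
    simp [hf]
  have f2 : ∀ i, i.1 ≠ c.1 → f i = 0 := by
    intro i hi
    rw [hf, Finsupp.add_apply, Finsupp.single_eq_of_ne, Finsupp.single_eq_of_ne, add_zero]
    · exact fun h => hi (by rw [h])
    · exact fun h => hi (by rw [h])
  refine ⟨f, ⟨?_, ?_⟩, ?_⟩
  · rintro ⟨p, k⟩
    rw [deg_TT]
    by_cases hp : p = c.1
    · subst hp
      rw [inU_toZ (0, 0) (by ext <;> simp [toZ]; omega)]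
      have h00 : (a - toZ (0, 0) : ℤ × ℤ) = a := by ext <;> simp [toZ]
      rw [h00]
      fin_cases k
      · change f (c.1, 0) ∈ _
        rw [f0]
        exact hm _
      · change f (c.1, 1) ∈ _
        rw [f1]
        exact hm _
    · change InU _ _ (f (p, k))
      rw [f2 _ hp]
      exact inU_zero _ _
  · intro i
    exact udiff_row c (n + 1) f i (toZ_ne (by simp; omega))
  · rw [phi_apply, f0, f1, map_smul, map_smul, ev_pow (K := K) a]
    ext
    · simp
    · simp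

theorem phi_eq_zero (c : ℤ × ℤ) (n : ℤ) (hn : n + 1 = c.1 + c.2) (a : ℤ × ℤ)
    (f : ℤ × Fin 2 →₀ S K) (hf : (TT K).IsCycle c (n + 1) a f) :
    phi c.1 f = 0 ↔ (TT K).IsBoundary c n a f := by
  obtain ⟨hf1, hf2⟩ := hf
  have h00 : (a - toZ (0, 0) : ℤ × ℤ) = a := by ext <;> simp [toZ]
  have hfm : ∀ k, f (c.1, k) ∈ Spiece K a := fun k => by
    have := mem_of_slot hf1 (i := (c.1, k)) (0, 0) (by ext <;> simp [toZ]; omega)
    rwa [h00] at this
  constructor
  · intro h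
    rw [phi_apply] at h
    obtain ⟨v0, hv0, v1, hv1, u0, hu0, u1, hu1, e0, e1⟩ := exists_boundary (hfm 0) (hfm 1) h
    set g : ℤ × Fin 2 →₀ S K :=
      (Finsupp.single (c.1 - 1, 0) v0 + Finsupp.single (c.1 - 1, 1) v1) +
      (Finsupp.single (c.1, 0) u0 + Finsupp.single (c.1, 1) u1) with hg
    have g0 : g (c.1 - 1, 0) = v0 := by simp [hg]
    have g1 : g (c.1 - 1, 1) = v1 := by simp [hg]
    have g2 : g (c.1, 0) = u0 := by simp [hg]
    have g3 : g (c.1, 1) = u1 := by simp [hg]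
    have g4 : ∀ i, i.1 ≠ c.1 → i.1 ≠ c.1 - 1 → g i = 0 := by
      intro i hi hi'
      rw [hg, Finsupp.add_apply, Finsupp.add_apply, Finsupp.add_apply,
        Finsupp.single_eq_of_ne, Finsupp.single_eq_of_ne,
        Finsupp.single_eq_of_ne, Finsupp.single_eq_of_ne]
      · simp
      · exact fun h => hi (by rw [h])
      · exact fun h => hi (by rw [h])
      · exact fun h => hi' (by rw [h])
      · exact fun h => hi' (by rw [h])
    refine ⟨g, ?_, ?_⟩
    · rintro ⟨p, k⟩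
      rw [deg_TT]
      by_cases hp : p = c.1
      · subst hp
        rw [inU_toZ (0, 1) (by ext <;> simp [toZ]; omega)]
        have h01 : (a - toZ (0, 1) : ℤ × ℤ) = a - (0, 1) := by ext <;> simp [toZ]
        rw [h01]
        fin_cases k
        · change g (c.1, 0) ∈ _
          rw [g2]
          exact hu0
        · change g (c.1, 1) ∈ _
          rw [g3]
          exact hu1
      · by_cases hp' : p = c.1 - 1
        · subst hp'
          rw [inU_toZ (1, 0) (by ext <;> simp [toZ]; omega)]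
          have h10 : (a - toZ (1, 0) : ℤ × ℤ) = a - (1, 0) := by ext <;> simp [toZ]
          rw [h10]
          fin_cases k
          · change g (c.1 - 1, 0) ∈ _
            rw [g0]
            exact hv0
          · change g (c.1 - 1, 1) ∈ _
            rw [g1]
            exact hv1
        · change InU _ _ (g (p, k))
          rw [g4 _ hp hp']
          exact inU_zero _ _
    · obtain ⟨d0, d1⟩ := udiff_top c n hn g
      rw [g0, g2] at d0
      rw [g0, g1, g2, g3] at d1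
      rintro ⟨p, k⟩
      by_cases hp : p = c.1
      · subst hp
        fin_cases k
        · change (TT K).udiff c n g (c.1, 0) = f (c.1, 0)
          rw [d0, e0]
        · change (TT K).udiff c n g (c.1, 1) = f (c.1, 1)
          rw [d1, e1]
      · have hr : ∀ r, toZ r ≠ ((-p, p - (n + 1)) + c : ℤ × ℤ) := toZ_ne (by simp; omega)
        rw [udiff_row c n g (p, k) hr]
        exact (eq_zero_of_slot hf1 (i := (p, k)) hr).symm
  · rintro ⟨g, -, hg⟩
    obtain ⟨d0, d1⟩ := udiff_top c n hn g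
    have e0 := (hg (c.1, 0)).symm.trans d0
    have e1 := (hg (c.1, 1)).symm.trans d1
    exact (congrArg₂ (fun x y : S K => ev x + ev y * DualNumber.eps) e0 e1).trans
      (ev_boundary _ _ _ _)

theorem homologyIs (c : ℤ × ℤ) (n : ℤ) (hn : n + 1 = c.1 + c.2) :
    (TT K).HomologyIs c n (FZ K) := by
  refine ⟨max c.1 c.2, fun _ _ => phi c.1, fun a₁ a₂ h1 h2 => ⟨?_, ?_⟩⟩
  · intro z
    have g1 : 0 ≤ ((a₁, a₂) - c : ℤ × ℤ).1 := by
      change 0 ≤ a₁ - c.1
      have := le_max_left c.1 c.2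
      omega
    have g2 : 0 ≤ ((a₁, a₂) - c : ℤ × ℤ).2 := by
      change 0 ≤ a₂ - c.2
      have := le_max_right c.1 c.2
      omega
    exact surj c n hn _ g1 g2 z
  · intro f hf
    refine ⟨phi_eq_zero c n hn _ f hf, fun i => ⟨?_, ?_⟩⟩
    · exact (phi_smul c.1 _ _).trans (by rw [ev_X]; rfl)
    · exact (phi_smul c.1 _ _).trans (by rw [ev_X]; rfl)

theorem monad (c : ℤ × ℤ) : (TT K).MonadFor (FZ K) c := fun n =>
  ⟨vanishes c n, homologyIs c n⟩

end Pool.Agent.K7.H10.TR
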