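import Pool.Agent.K7.H10.TR.Model

/-!
# Exactness of the strands
-/

set_option autoImplicit false

namespace Pool.Agent.K7.H10.TR

universe u

variable {K : Type u} [Field K]

open MvPolynomial

/-- The homotopy of degree `(0, -1)`. -/
noncomputable def locHom (f : ℤ × Fin 2 →₀ Om K) : ℤ × Fin 2 →₀ Om K :=
  f.mapRange (hom df) (map_zero _)

theorem locHom_apply (f : ℤ × Fin 2 →₀ Om K) (i : ℤ × Fin 2) :
    locHom f i = hom df (f i) := rfl

theorem exact_left (c : ℤ) : (TT K).StrandExact (fun a => a.1 = c) := by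
  intro n (f : ℤ × Fin 2 →₀ Om K) hf h
  have hf' : ∀ p k, p ≠ -c → f (p, k) = 0 := fun p k hp =>
    hf (p, k) (fun h => hp (by change -p = c at h; omega))
  have h0 : (TT K).diff (n + 1) f (-c, 0) = 0 := h (-c, 0) (by change - -c = c; omega)
  have h1 : (TT K).diff (n + 1) f (-c, 1) = 0 := h (-c, 1) (by change - -c = c; omega)
  rw [diff_zero, hf' (-c - 1) 0 (by omega), map_zero, zero_add] at h0
  rw [diff_one, hf' (-c - 1) 0 (by omega), hf' (-c - 1) 1 (by omega), map_zero, map_zero,
    zero_add, zero_add] at h1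
  have h0' := congrArg (hom (K := K) df) h0
  have h1' := congrArg (hom (K := K) df) h1
  simp only [map_add, map_zero] at h0' h1'
  refine ⟨locHom f, fun i hi => ?_, ?_⟩
  · obtain ⟨p, k⟩ := i
    change ¬ (-p = c) at hi
    change hom df (f (p, k)) = 0
    rw [hf' p k (by omega), map_zero]
  · rintro ⟨q, k⟩ hq
    change -q = c at hq
    obtain rfl : q = -c := by omega
    fin_cases k
    · change (TT K).diff n (locHom f) (-c, 0) = f (-c, 0)
      rw [diff_zero, locHom_apply, locHom_apply, hf' (-c - 1) 0 (by omega),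
        map_zero, map_zero, zero_add, h'_f0, h0', sub_zero]
    · change (TT K).diff n (locHom f) (-c, 1) = f (-c, 1)
      rw [diff_one, locHom_apply, locHom_apply, locHom_apply, locHom_apply, hf' (-c - 1) 0 (by omega), hf' (-c - 1) 1 (by omega),
        map_zero, map_zero, map_zero, zero_add, zero_add, h'_f0, h'_f1]
      calc _ = f (-c, 1) - ((hom df) ((actL (ff K 1)) (f (-c, 0))) +
          (hom df) ((actL (ff K 0)) (f (-c, 1)))) := by abel
        _ = f (-c, 1) := by rw [h1', sub_zero]

theorem exact_right (c : ℤ) : (TT K).StrandExact (fun a => a.2 = c) := by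
  intro n (f : ℤ × Fin 2 →₀ Om K) hf h
  have hf' : ∀ p k, p ≠ n + 1 + c → f (p, k) = 0 := fun p k hp =>
    hf (p, k) (fun h => hp (by change p - (n + 1) = c at h; omega))
  have h0 : (TT K).diff (n + 1) f (n + 1 + c + 1, 0) = 0 :=
    h (n + 1 + c + 1, 0) (by change n + 1 + c + 1 - (n + 1 + 1) = c; omega)
  have h1 : (TT K).diff (n + 1) f (n + 1 + c + 1, 1) = 0 :=
    h (n + 1 + c + 1, 1) (by change n + 1 + c + 1 - (n + 1 + 1) = c; omega)
  refine ⟨shiftHom f, fun i hi => ?_, ?_⟩
  · obtain ⟨p, k⟩ := i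
    change ¬ (p - n = c) at hi
    change hom de (f (p + 1, k)) = 0
    rw [hf' (p + 1) k (by omega), map_zero]
  · rintro ⟨q, k⟩ hq
    change q - (n + 1) = c at hq
    obtain rfl : q = n + 1 + c := by omega
    refine shift_aux n (n + 1) f _ k fun l => ?_
    fin_cases l
    · exact h0
    · exact h1

theorem isTate : (TT K).IsTateResolution := ⟨exact_total, exact_left, exact_right⟩

end Pool.Agent.K7.H10.TR
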